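import Pool.Agent.Odp3.Horm.Meas
import Pool.Agent.Odp3.Pt.Bdd
import Pool.Agent.Work.MP_a2bf38_gt.Ch.Cal
import Pool.Agent.Work.MP_a2bf38_gt.I.GapA
import Pool.Agent.Work.MP_0e9e72_an.SCVA

/-!
# Holomorphic functions and the exhaustion of the sheets
-/

open scoped ContDiff Topology ENNReal NNReal WithZero
open Set MeasureTheory Filter MvPolynomial Pool.Agent.ODP Pool.Agent.ToricKRF
  Pool.Agent.ToricKRF.G Pool.Agent.KRFS Pool.Agent.KRFQ Pool.Agent.KRFF Pool.Agent.KRFCh.Cp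

namespace Pool.Agent.Odp3

variable {n : ℕ}

/-- `cc` as a real linear map. -/
noncomputable def ccM (n : ℕ) : Cn n →L[ℝ] (Fin n → ℂ) :=
  ContinuousLinearMap.pi fun j => KRFQ.ccL j

theorem ccM_apply (z : Cn n) : ccM n z = cc z := rfl

/-- `ofv` as a real linear map. -/
noncomputable def ofM (n : ℕ) : (Fin n → ℂ) →L[ℝ] Cn n :=
  (ContinuousLinearMap.pi fun j => Complex.reCLM.comp (ContinuousLinearMap.proj j)).prod
    (ContinuousLinearMap.pi fun j => Complex.imCLM.comp (ContinuousLinearMap.proj j))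

theorem ofM_apply (v : Fin n → ℂ) : ofM n v = ofv v := rfl

theorem ofv_I_smul (v : Fin n → ℂ) : ofv (Complex.I • v) = J (ofv v) := by
  refine Prod.ext ?_ ?_ <;> funext l <;> simp [ofv, J]

theorem cc_J' (u : Cn n) : cc (J u) = Complex.I • cc u := by
  funext k
  rw [cc_J]
  rfl

theorem contDiffOn_cc {f : (Fin n → ℂ) → ℂ} {Ω : Set (Fin n → ℂ)} (hΩ : IsOpen Ω)
    (hf : DifferentiableOn ℂ f Ω) :
    ContDiffOn ℝ ∞ (fun z : Cn n => f (cc z)) {z | cc z ∈ Ω} := by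
  have h1 : ContDiffOn ℝ ∞ f Ω := fun w hw =>
    ((SCV.contDiffAt_of_differentiableOn hΩ hf hw (n := ⊤)).restrict_scalars ℝ).contDiffWithinAt
  exact h1.comp (ccM n).contDiff.contDiffOn fun z hz => hz

theorem fderiv_cc {f : (Fin n → ℂ) → ℂ} {Ω : Set (Fin n → ℂ)} (hΩ : IsOpen Ω)
    (hf : DifferentiableOn ℂ f Ω) {z : Cn n} (hz : cc z ∈ Ω) (u : Cn n) :
    fderiv ℝ (fun z : Cn n => f (cc z)) z u = fderiv ℂ f (cc z) (cc u) := by
  have h1 : HasFDerivAt f (fderiv ℂ f (cc z)) (cc z) :=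
    (hf.differentiableAt (hΩ.mem_nhds hz)).hasFDerivAt
  have h2 : HasFDerivAt (fun z : Cn n => f (cc z))
      (((fderiv ℂ f (cc z)).restrictScalars ℝ).comp (ccM n)) z :=
    (h1.restrictScalars ℝ).comp z (ccM n).hasFDerivAt
  rw [h2.fderiv]
  rfl

theorem fderiv_cc_J {f : (Fin n → ℂ) → ℂ} {Ω : Set (Fin n → ℂ)} (hΩ : IsOpen Ω)
    (hf : DifferentiableOn ℂ f Ω) {z : Cn n} (hz : cc z ∈ Ω) (u : Cn n) :
    fderiv ℝ (fun z : Cn n => f (cc z)) z (J u) =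
      Complex.I * fderiv ℝ (fun z : Cn n => f (cc z)) z u := by
  rw [fderiv_cc hΩ hf hz, fderiv_cc hΩ hf hz, cc_J', map_smul, smul_eq_mul]

theorem isOpen_cc {Ω : Set (Fin n → ℂ)} (hΩ : IsOpen Ω) : IsOpen {z : Cn n | cc z ∈ Ω} :=
  hΩ.preimage continuous_cc'

/-- A smooth function with `∂f/∂z_kbar = 0` is holomorphic. -/
theorem differentiableOn_of_dzb {f : (Fin n → ℂ) → ℂ} {Ω : Set (Fin n → ℂ)} (hΩ : IsOpen Ω)
    (hf : ContDiffOn ℝ ∞ (fun z : Cn n => f (cc z)) {z | cc z ∈ Ω})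
    (h : ∀ z : Cn n, cc z ∈ Ω → ∀ k, dzb k (fun z : Cn n => f (cc z)) z = 0) :
    DifferentiableOn ℂ f Ω := by
  intro w hw
  refine DifferentiableAt.differentiableWithinAt ?_
  have hw' : cc (ofv w) ∈ Ω := by rwa [cc_ofv']
  set F : Cn n → ℂ := fun z => f (cc z) with hF
  have h1 : HasFDerivAt F (fderiv ℝ F (ofv w)) (ofv w) :=
    ((hf.differentiableOn (by simp)).differentiableAt
      ((isOpen_cc hΩ).mem_nhds hw')).hasFDerivAt
  have h2 : HasFDerivAt (fun v : Fin n → ℂ => F (ofv v))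
      ((fderiv ℝ F (ofv w)).comp (ofM n)) w :=
    HasFDerivAt.comp (g := F) (f := ofM n) w h1 (ofM n).hasFDerivAt
  have h3 : (fun v : Fin n → ℂ => F (ofv v)) = f := by
    funext v
    rw [hF]
    change f (cc (ofv v)) = f v
    rw [cc_ofv']
  rw [h3] at h2
  let g : (Fin n → ℂ) →L[ℂ] ℂ :=
    { toFun := fun v => fderiv ℝ F (ofv w) (ofv v)
      map_add' := fun v v' => by
        have := map_add ((fderiv ℝ F (ofv w)).comp (ofM n)) v v'
        exact this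
      map_smul' := fun c v => by
        have e1 : ofv (c • v) = c.re • ofv v + c.im • J (ofv v) := by
          rw [← ofv_I_smul]
          refine Prod.ext ?_ ?_ <;> funext l <;> simp [ofv, Complex.mul_re, Complex.mul_im,
            sub_eq_add_neg]
        rw [e1, map_add, map_smul, map_smul, fderiv_J_of_dzb (fun k => h _ hw' k)]
        simp only [RingHom.id_apply, smul_eq_mul, Complex.real_smul]
        conv_rhs => rw [← Complex.re_add_im c]
        ring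
      cont := ((fderiv ℝ F (ofv w)).comp (ofM n)).continuous }
  have h4 : HasFDerivAt f g w := by
    refine .of_isLittleO ?_
    exact h2.isLittleO
  exact h4.differentiableAt

theorem nsq_toC1 (w : ℂ) : nsq (toC1 w) = ‖w‖ ^ 2 := by
  rw [toC1_apply, ← Complex.normSq_eq_norm_sq, Complex.normSq_apply]
  simp [nsq, dotProduct]

theorem levz_normSq_nonneg {f : (Fin n → ℂ) → ℂ} {Ω : Set (Fin n → ℂ)} (hΩ : IsOpen Ω)
    (hf : DifferentiableOn ℂ f Ω) {z : Cn n} (hz : cc z ∈ Ω) (u : Cn n) :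
    0 ≤ levz (fun z : Cn n => ‖f (cc z)‖ ^ 2) u z := by
  have h1 : HolOn (fun z : Cn n => toC1 (f (cc z))) {z | cc z ∈ Ω} :=
    holOn_toC1 (isOpen_cc hΩ) (contDiffOn_cc hΩ hf)
      fun k z hz => dzb_of_fderiv_J (fderiv_cc_J hΩ hf hz) k
  have h2 : (fun z : Cn n => ‖f (cc z)‖ ^ 2) = fun z => nsq (toC1 (f (cc z))) := by
    funext z
    rw [nsq_toC1]
  rw [h2, levz_comp isOpen_univ Gap.contDiff_nsq'.contDiffOn (isOpen_cc hΩ) h1 hz (mem_univ _) u,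
    Gap.levz_nsq']
  exact Gap.nsq_nonneg _

theorem contDiffOn_normSq {f : (Fin n → ℂ) → ℂ} {Ω : Set (Fin n → ℂ)} (hΩ : IsOpen Ω)
    (hf : DifferentiableOn ℂ f Ω) :
    ContDiffOn ℝ ∞ (fun z : Cn n => ‖f (cc z)‖ ^ 2) {z | cc z ∈ Ω} :=
  (contDiffOn_cc hΩ hf).norm_sq ℝ

theorem J_smul (r : ℝ) (u : Cn n) : J (r • u) = r • J u := by
  refine Prod.ext ?_ ?_ <;> funext l <;> simp [J]

theorem nsq_smul (r : ℝ) (u : Cn n) : nsq (r • u) = r ^ 2 * nsq u := by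
  rw [Gap.nsq_eq, Gap.nsq_eq, Finset.mul_sum]
  refine Finset.sum_congr rfl fun i _ => ?_
  simp
  ring

theorem holOn_smul (r : ℝ) (S : Set (Cn n)) : HolOn (fun z : Cn n => r • z) S := by
  have h1 : ∀ z u : Cn n, fderiv ℝ (fun z : Cn n => r • z) z u = r • u := fun z u => by
    have h2 : HasFDerivAt (fun z : Cn n => r • z) (r • ContinuousLinearMap.id ℝ (Cn n)) z :=
      (r • ContinuousLinearMap.id ℝ (Cn n)).hasFDerivAt
    rw [h2.fderiv]
    rfl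
  refine ⟨(contDiff_id.const_smul r).contDiffOn, fun z _ u => ?_⟩
  rw [h1, h1, J_smul]

/-! ### The exhaustion of the base -/

/-- The ball minus the zeros of `Q`. -/
def BB (Q : (Fin n → ℂ) → ℂ) (ρ : ℝ) : Set (Fin n → ℂ) := {w | w ∈ bal n ρ ∧ Q w ≠ 0}

/-- The exhaustion `-log (1 - |z/ρ|²) + |1/Q|²`. -/
noncomputable def exB (Q : (Fin n → ℂ) → ℂ) (ρ : ℝ) (z : Cn n) : ℝ :=
  lb (ρ⁻¹ • z) + ‖(fun w => (Q w)⁻¹) (cc z)‖ ^ 2

/-- The potential of the metric. -/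
noncomputable def gaB (Q : (Fin n → ℂ) → ℂ) (ρ : ℝ) (z : Cn n) : ℝ :=
  nsq z + exB Q ρ z * exB Q ρ z

section Base

variable {Q : (Fin n → ℂ) → ℂ} {ρ : ℝ}

theorem isOpen_BB (hQ : ContinuousOn Q (bal n ρ)) : IsOpen (BB Q ρ) :=
  hQ.isOpen_inter_preimage (isOpen_bal n ρ) isClosed_singleton.isOpen_compl

theorem nsq_lt (hρ : 0 < ρ) {z : Cn n} (hz : cc z ∈ BB Q ρ) : nsq (ρ⁻¹ • z) < 1 := by
  have h1 : nq (cc z) < ρ ^ 2 := hz.1
  rw [nq_eq_nsq] at h1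
  rw [nsq_smul, inv_pow, inv_mul_lt_iff₀ (by positivity), mul_one]
  exact h1

theorem inv_diff (hQ : DifferentiableOn ℂ Q (bal n ρ)) :
    DifferentiableOn ℂ (fun w => (Q w)⁻¹) (BB Q ρ) :=
  (hQ.mono fun _ h => h.1).inv fun _ h => h.2

theorem lb_smooth (hρ : 0 < ρ) :
    ContDiffOn ℝ ∞ (fun z : Cn n => lb (ρ⁻¹ • z)) {z | cc z ∈ BB Q ρ} :=
  contDiffOn_lb.comp (holOn_smul ρ⁻¹ {z : Cn n | cc z ∈ BB Q ρ}).1 fun _ hz => nsq_lt hρ hz

theorem exB_smooth (hρ : 0 < ρ) (hQ : DifferentiableOn ℂ Q (bal n ρ)) :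
    ContDiffOn ℝ ∞ (exB Q ρ) {z | cc z ∈ BB Q ρ} :=
  (lb_smooth hρ).add (contDiffOn_normSq (isOpen_BB hQ.continuousOn) (inv_diff hQ))

theorem gaB_smooth (hρ : 0 < ρ) (hQ : DifferentiableOn ℂ Q (bal n ρ)) :
    ContDiffOn ℝ ∞ (gaB Q ρ) {z | cc z ∈ BB Q ρ} :=
  Gap.contDiff_nsq'.contDiffOn.add ((exB_smooth hρ hQ).mul (exB_smooth hρ hQ))

theorem lb_nonneg {y : Cn n} (hy : nsq y < 1) : 0 ≤ lb y := by
  unfold lb
  rw [Left.nonneg_neg_iff]
  exact Real.log_nonpos (sub_pos.2 hy).le (by linarith [Gap.nsq_nonneg y])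

theorem exB_nonneg (hρ : 0 < ρ) {z : Cn n} (hz : cc z ∈ BB Q ρ) : 0 ≤ exB Q ρ z :=
  add_nonneg (lb_nonneg (nsq_lt hρ hz)) (by positivity)

theorem at2 {E : Type*} [NormedAddCommGroup E] [NormedSpace ℝ E] {f : Cn n → E}
    {Ω : Set (Fin n → ℂ)} (hΩ : IsOpen Ω)
    (hf : ContDiffOn ℝ ∞ f {z | cc z ∈ Ω}) {z : Cn n} (hz : cc z ∈ Ω) : ContDiffAt ℝ 2 f z :=
  (hf.contDiffAt ((isOpen_cc hΩ).mem_nhds hz)).of_le two_le_infty

theorem exB_levz (hρ : 0 < ρ) (hQ : DifferentiableOn ℂ Q (bal n ρ)) {z : Cn n}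
    (hz : cc z ∈ BB Q ρ) (u : Cn n) : 0 ≤ levz (exB Q ρ) u z := by
  have hO := isOpen_BB hQ.continuousOn
  unfold exB
  rw [Bd.levz_add (at2 hO (lb_smooth hρ) hz)
    (at2 hO (contDiffOn_normSq hO (inv_diff hQ)) hz)]
  refine add_nonneg ?_ (levz_normSq_nonneg hO (inv_diff hQ) hz u)
  rw [levz_comp isOpen_ball1 contDiffOn_lb (isOpen_cc hO) (holOn_smul ρ⁻¹ _) hz (nsq_lt hρ hz) u]
  exact le_trans (by positivity) (le_levz_lb (nsq_lt hρ hz) _)

theorem levz_gaB (hρ : 0 < ρ) (hQ : DifferentiableOn ℂ Q (bal n ρ)) {z : Cn n}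
    (hz : cc z ∈ BB Q ρ) (u : Cn n) :
    nsq u + 2 * dsq (exB Q ρ) u z ≤ levz (gaB Q ρ) u z := by
  have hO := isOpen_BB hQ.continuousOn
  have h1 := at2 hO (exB_smooth hρ hQ) hz
  unfold gaB
  rw [Bd.levz_add (Gap.contDiff_nsq'.contDiffAt.of_le two_le_infty) (h1.mul h1), Gap.levz_nsq', levz_mul h1 h1]
  have h2 := mul_nonneg (exB_nonneg hρ hz) (exB_levz hρ hQ hz u)
  unfold dsq
  nlinarith

end Base

/-! ### Compactness -/

section Compact

variable {B : Type} [CommRing B] [Algebra ℂ B]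

theorem isClosedEmbedding_ev : Topology.IsClosedEmbedding (fun (χ : Pt B) (b : B) => χ b) := by
  refine ⟨isEmbedding_ev, ?_⟩
  have h1 : range (fun (χ : Pt B) (b : B) => χ b) =
      (⋂ (a : B) (b : B), {f : B → ℂ | f (a + b) = f a + f b}) ∩
      (⋂ (a : B) (b : B), {f : B → ℂ | f (a * b) = f a * f b}) ∩
      (⋂ c : ℂ, {f : B → ℂ | f (algebraMap ℂ B c) = c}) := by
    ext f
    simp only [mem_range, mem_inter_iff, mem_iInter, mem_ofPred_eq]
    constructor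
    · rintro ⟨χ, rfl⟩
      exact ⟨⟨fun a b => map_add χ a b, fun a b => map_mul χ a b⟩, fun c => χ.commutes c⟩
    · rintro ⟨⟨h1, h2⟩, h3⟩
      refine ⟨{ toFun := f, map_one' := ?_, map_mul' := h2, map_zero' := ?_, map_add' := h1,
                commutes' := h3 }, rfl⟩
      · have := h3 1
        rwa [map_one] at this
      · have := h3 0
        rwa [map_zero] at this
  rw [h1]
  refine ((isClosed_iInter fun a => isClosed_iInter fun b => ?_).inter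
    (isClosed_iInter fun a => isClosed_iInter fun b => ?_)).inter (isClosed_iInter fun c => ?_)
  · exact isClosed_eq (by fun_prop) (by fun_prop)
  · exact isClosed_eq (by fun_prop) (by fun_prop)
  · exact isClosed_eq (continuous_apply _) continuous_const

theorem isCompact_bdd (C : B → ℝ) : IsCompact {χ : Pt B | ∀ b, ‖χ b‖ ≤ C b} := by
  have h1 : IsCompact (Set.pi univ fun b => Metric.closedBall (0 : ℂ) (C b)) :=
    isCompact_univ_pi fun b => isCompact_closedBall _ _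
  have h2 := isClosedEmbedding_ev.isCompact_preimage h1
  have h3 : {χ : Pt B | ∀ b, ‖χ b‖ ≤ C b} = (fun (χ : Pt B) (b : B) => χ b) ⁻¹'
      (Set.pi univ fun b => Metric.closedBall (0 : ℂ) (C b)) := by
    ext χ
    simp [Set.mem_pi]
  rwa [h3]

variable {d : ℕ} {G : Germ n d B}

theorem isCompact_nq (G : Germ n d B) (R : ℝ) : IsCompact {χ : Pt B | nq (proj G.y χ) ≤ R} := by
  choose C hC using fun b => G.bdd b R
  refine (isCompact_bdd C).of_isClosed_subset ?_ fun χ hχ b => hC b χ hχ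
  exact isClosed_le (continuous_nq.comp (continuous_proj G.y)) continuous_const

/-- The exhaustion function on the sheets. -/
noncomputable def exV (G : Germ n d B) (Q : (Fin n → ℂ) → ℂ) (ρ : ℝ) (χ : Pt B) : ℝ :=
  exB Q ρ (ofv (proj G.y χ))

/-- The metric on the sheets. -/
noncomputable def gaV (G : Germ n d B) (Q : (Fin n → ℂ) → ℂ) (ρ : ℝ) (χ : Pt B) : ℝ :=
  gaB Q ρ (ofv (proj G.y χ))

variable {Q : (Fin n → ℂ) → ℂ} {ρ : ℝ} {sg : B}

theorem sec_BB {Ω : Set (Fin n → ℂ)} {s : (Fin n → ℂ) → Pt B}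
    (h : IsSec G (VV G sg Q ρ) Ω s) {w : Fin n → ℂ} (hw : w ∈ Ω) : w ∈ BB Q ρ := by
  have h1 := h.mem w hw
  have h2 := h.proj w hw
  refine ⟨?_, ?_⟩
  · have h3 := h1.1
    rwa [h2] at h3
  · have h3 := h1.2.1
    rwa [h2] at h3

theorem sec_ofv {V : Set (Pt B)} {Ω : Set (Fin n → ℂ)} {s : (Fin n → ℂ) → Pt B}
    (h : IsSec G V Ω s) {z : Cn n} (hz : cc z ∈ Ω) : ofv (proj G.y (s (cc z))) = z := by
  rw [h.proj _ hz, ofv_cc]

theorem sec_ev {V : Set (Pt B)} {Ω : Set (Fin n → ℂ)} {s : (Fin n → ℂ) → Pt B}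
    (h : IsSec G V Ω s) {z : Cn n} (hz : cc z ∈ Ω) {E : Type*} (f : Cn n → E) :
    (fun z : Cn n => f (ofv (proj G.y (s (cc z))))) =ᶠ[𝓝 z] f := by
  filter_upwards [(isOpen_cc h.isOpen).mem_nhds hz] with x hx
  rw [sec_ofv h hx]

theorem smR_base {E : Type} [NormedAddCommGroup E] [NormedSpace ℝ E] {f : Cn n → E}
    (hf : ContDiffOn ℝ ∞ f {z | cc z ∈ BB Q ρ}) :
    SmR G (VV G sg Q ρ) fun χ => f (ofv (proj G.y χ)) := fun _ _ h =>
  (hf.mono fun _ hz => sec_BB h hz).congr fun _ hz => congrArg f (sec_ofv h hz)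

theorem isExh (hQ : IsQ G Q ρ) (hd : ∀ χ ∈ VV G sg Q ρ, ‖χ sg - 1‖ ≤ 1 / 4) :
    IsExh (ech (G := G) (V := VV G sg Q ρ)) (VV G sg Q ρ) (fun c z => gaV G Q ρ (c.s (cc z)))
      (exV G Q ρ) where
  smooth c := smR_base (exB_smooth hQ.pos hQ.holo) _ _ c.isSec
  cpt R := by
    have hρ := hQ.pos
    set r : ℝ := ρ ^ 2 * (1 - Real.exp (-R)) with hr
    have hr1 : r < ρ ^ 2 := by
      have h1 := Real.exp_pos (-R)
      have h2 : 0 < ρ ^ 2 := by positivity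
      nlinarith
    set S : Set (Pt B) := {χ | proj G.y χ ∈ {w : Fin n → ℂ | nq w ≤ r} ∩
      {w | 1 ≤ R * ‖Q w‖ ^ 2}} ∩ {χ | ‖χ sg - 1‖ ≤ 1 / 4} with hS
    have hcl : IsClosed ({w : Fin n → ℂ | nq w ≤ r} ∩ {w | 1 ≤ R * ‖Q w‖ ^ 2}) := by
      have h1 : IsClosed {w : Fin n → ℂ | nq w ≤ r} := isClosed_le continuous_nq continuous_const
      have h2 : ContinuousOn (fun w => R * ‖Q w‖ ^ 2) {w : Fin n → ℂ | nq w ≤ r} :=
        continuousOn_const.mul (((hQ.holo.continuousOn.mono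
          fun w (hw : nq w ≤ r) => lt_of_le_of_lt hw hr1).norm).pow 2)
      exact h2.preimage_isClosed_of_isClosed h1 isClosed_Ici
    have hScl : IsClosed S := (hcl.preimage (continuous_proj G.y)).inter
      (isClosed_le ((continuous_ev sg).sub continuous_const).norm continuous_const)
    have hSc : IsCompact S := (isCompact_nq G r).of_isClosed_subset hScl fun χ hχ => hχ.1.1
    have hSV : S ⊆ VV G sg Q ρ := by
      rintro χ ⟨⟨h1, h2⟩, h3⟩
      refine ⟨lt_of_le_of_lt h1 hr1, fun h0 => ?_, lt_of_le_of_lt h3 (by norm_num)⟩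
      have h4 : 1 ≤ R * ‖Q (proj G.y χ)‖ ^ 2 := h2
      rw [h0, norm_zero] at h4
      norm_num at h4
    have hsub : {p | p ∈ VV G sg Q ρ ∧ exV G Q ρ p ≤ R} ⊆ S := by
      rintro χ ⟨hχ, hle⟩
      have hB : cc (ofv (proj G.y χ)) ∈ BB Q ρ := by
        rw [cc_ofv']
        exact ⟨hχ.1, hχ.2.1⟩
      have hlt := nsq_lt hρ hB
      have h1 : exV G Q ρ χ = lb (ρ⁻¹ • ofv (proj G.y χ)) + ‖(Q (proj G.y χ))⁻¹‖ ^ 2 := by
        unfold exV exB
        rw [cc_ofv']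
      have h2 := lb_nonneg hlt
      have h3 : (0 : ℝ) ≤ ‖(Q (proj G.y χ))⁻¹‖ ^ 2 := by positivity
      refine ⟨⟨?_, ?_⟩, hd χ hχ⟩
      · have h4 : lb (ρ⁻¹ • ofv (proj G.y χ)) ≤ R := by linarith
        rw [lb_le_iff hlt, nsq_smul, inv_pow, inv_mul_le_iff₀ (by positivity)] at h4
        have h5 := nq_eq_nsq (ofv (proj G.y χ))
        rw [cc_ofv'] at h5
        change nq (proj G.y χ) ≤ r
        rw [h5]
        exact h4
      · have h4 : ‖(Q (proj G.y χ))⁻¹‖ ^ 2 ≤ R := by linarith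
        have h5 : 0 < ‖Q (proj G.y χ)‖ ^ 2 := by
          have := norm_pos_iff.2 hχ.2.1
          positivity
        rw [norm_inv, inv_pow, inv_le_iff_one_le_mul₀ h5] at h4
        exact h4
    have hcont : ContinuousOn (exV G Q ρ) (VV G sg Q ρ) :=
      continuousOn_of_sec (fun p hp => hQ.chart hp) fun c => by
        have h1 := (smR_base (sg := sg) (exB_smooth hQ.pos hQ.holo) _ _ c.isSec).continuousOn
        have h2 : ContinuousOn (fun w : Fin n → ℂ => exV G Q ρ (c.s (cc (ofv w)))) c.Ω :=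
          h1.comp continuous_ofv.continuousOn fun w hw => by
            change cc (ofv w) ∈ c.Ω
            rwa [cc_ofv']
        simpa only [cc_ofv'] using h2
    have heq : {p | p ∈ VV G sg Q ρ ∧ exV G Q ρ p ≤ R} = S ∩ {p | exV G Q ρ p ≤ R} := by
      ext χ
      exact ⟨fun h => ⟨hsub h, h.2⟩, fun h => ⟨hSV h.1, h.2⟩⟩
    refine hSc.of_isClosed_subset ?_ hsub
    rw [heq]
    exact (hcont.mono hSV).preimage_isClosed_of_isClosed hScl isClosed_Iic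
  grad c z hz u := by
    have h1 : pb ech c (exV G Q ρ) =ᶠ[𝓝 z] exB Q ρ := sec_ev c.isSec hz (exB Q ρ)
    have h2 : (fun z => gaV G Q ρ (c.s (cc z))) =ᶠ[𝓝 z] gaB Q ρ := sec_ev c.isSec hz (gaB Q ρ)
    rw [levz_congr' h2]
    have h3 := levz_gaB hQ.pos hQ.holo (sec_BB c.isSec hz) u
    have h4 : ((D u (pb ech c (exV G Q ρ)) z) ^ 2 + (D (J u) (pb ech c (exV G Q ρ)) z) ^ 2) / 4 =
        dsq (exB Q ρ) u z := dsq_congr h1 u
    rw [h4]
    have h5 := Gap.nsq_nonneg u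
    have h6 := dsq_nonneg (exB Q ρ) u z
    linarith

theorem gaV_pos (hQ : IsQ G Q ρ) {Ω : Set (Fin n → ℂ)} {s : (Fin n → ℂ) → Pt B}
    (h : IsSec G (VV G sg Q ρ) Ω s) {z : Cn n} (hz : cc z ∈ Ω) {u : Cn n} (hu : u ≠ 0) :
    0 < levz (fun z => gaV G Q ρ (s (cc z))) u z := by
  have h2 : (fun z => gaV G Q ρ (s (cc z))) =ᶠ[𝓝 z] gaB Q ρ := sec_ev h hz (gaB Q ρ)
  rw [levz_congr' h2]
  have h3 := levz_gaB hQ.pos hQ.holo (sec_BB h hz) u
  have h5 := Gap.nsq_pos hu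
  have h6 := dsq_nonneg (exB Q ρ) u z
  linarith

end Compact

end Pool.Agent.Odp3
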