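import Pool.Agent.Odp3.Horm.Defs
import Pool.Agent.Odp3.Pt.Sect
import Pool.Agent.Odp3.Pt.Bdd
import Pool.Agent.Odp3.An.Null
import Pool.Agent.Odp3.Horm.SheetsAux

open scoped ContDiff Topology ENNReal NNReal WithZero
open Set MeasureTheory Filter MvPolynomial Pool.Agent.ODP Pool.Agent.ToricKRF
  Pool.Agent.ToricKRF.G Pool.Agent.KRFS Pool.Agent.KRFQ

namespace Pool.Agent.Odp3

theorem SmR.continuousOn {n d : ℕ} {B : Type} [CommRing B] [Algebra ℂ B] {G : Germ n d B}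
    {V : Set (Pt B)} (hV : ∀ p ∈ V, ∃ c : Sec G V, p ∈ (ech c).source) {E : Type}
    [NormedAddCommGroup E] [NormedSpace ℝ E] {F : Pt B → E} (hF : SmR G V F) :
    ContinuousOn F V := by
  refine continuousOn_of_sec hV fun c => ?_
  have h2 : ContinuousOn (fun w : Fin n → ℂ => F (c.s (cc (ofv w)))) c.Ω :=
    (hF _ _ c.isSec).continuousOn.comp continuous_ofv.continuousOn fun w hw => by
      change cc (ofv w) ∈ c.Ω
      rwa [cc_ofv']
  simpa only [cc_ofv'] using h2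

theorem sheets_near {n d : ℕ} {B : Type} [CommRing B] [Algebra ℂ B] {G : Germ n d B} {x : Pt B}
    {sg : B} {m : ℕ} (hm : 1 ≤ m) (h : IsSep G x m sg) :
    ∃ ρ₀ : ℝ, 0 < ρ₀ ∧ ∀ (ρ : ℝ) (Q : (Fin n → ℂ) → ℂ), ρ ≤ ρ₀ → IsQ G Q ρ →
      ∀ χ ∈ VV G sg Q ρ, ‖χ sg - 1‖ ≤ 1 / 4 := by
  obtain ⟨ρ₀, C, hρ₀, hdich⟩ := h.dich hm
  refine ⟨ρ₀, hρ₀, fun ρ Q hρ hQ χ hχ => ?_⟩
  have hpos := hQ.pos
  have h1 : nq (proj G.y χ) < ρ₀ ^ 2 := hχ.1.trans_le (by gcongr)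
  rcases hdich χ h1 with h2 | h2
  · exact h2.1.le
  · exfalso
    have h3 : (1 : ℝ) ≤ ‖χ sg‖ + ‖χ sg - 1‖ := by
      calc (1 : ℝ) = ‖χ sg - (χ sg - 1)‖ := by simp
        _ ≤ _ := norm_sub_le _ _
    linarith [h2.1, hχ.2.2]

/-- Theorem G on the sheets near `x`. -/
theorem horm_sheets {n d : ℕ} {B : Type} [CommRing B] [Algebra ℂ B] {G : Germ n d B} {x : Pt B}
    {sg : B} {m : ℕ} (hm : 1 ≤ m) (h : IsSep G x m sg) :
    ∃ ρ₀ : ℝ, 0 < ρ₀ ∧ ∀ (ρ : ℝ) (Q : (Fin n → ℂ) → ℂ), ρ ≤ ρ₀ → IsQ G Q ρ →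
      ∀ (Φ k : Pt B → ℝ) (c₀ : ℝ), 0 < c₀ → SmR G (VV G sg Q ρ) Φ →
      (∀ Ω s, IsSec G (VV G sg Q ρ) Ω s → ∀ z : Cn n, cc z ∈ Ω → ∀ u : Cn n,
        0 ≤ levz (fun z => k (s (cc z))) u z ∧
        c₀ * levz (fun z => k (s (cc z))) u z ≤ levz (fun z => Φ (s (cc z))) u z) →
      ∀ u : Pt B → ℂ, SmR G (VV G sg Q ρ) u →
      sumI G (VV G sg Q ρ) (fun χ => ENNReal.ofReal (‖u χ‖ ^ 2 * Real.exp (-Φ χ))) ≠ ⊤ →
      ∀ Bd : Pt B → ℝ, (∀ χ, 0 ≤ Bd χ) →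
      (∀ Ω s, IsSec G (VV G sg Q ρ) Ω s → ContinuousOn (fun w => Bd (s w)) Ω) →
      sumI G (VV G sg Q ρ) (fun χ => ENNReal.ofReal (Bd χ * Real.exp (-Φ χ))) ≠ ⊤ →
      (∀ Ω s, IsSec G (VV G sg Q ρ) Ω s → ∀ z : Cn n, cc z ∈ Ω → ∀ v : Cn n,
        ‖∑ j, dzb j (fun z => u (s (cc z))) z * (starRingEnd ℂ) (cc v j)‖ ^ 2 ≤
          Bd (s (cc z)) * levz (fun z => k (s (cc z))) v z) →
      ∃ b : Pt B → ℂ, HolV G (VV G sg Q ρ) b ∧
        sumI G (VV G sg Q ρ) (fun χ => ENNReal.ofReal (‖b χ‖ ^ 2 * Real.exp (-Φ χ))) ≠ ⊤ ∧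
        sumI G (VV G sg Q ρ) (fun χ => ENNReal.ofReal (‖u χ - b χ‖ ^ 2 * Real.exp (-Φ χ))) ≤
          ENNReal.ofReal c₀⁻¹ *
            sumI G (VV G sg Q ρ) (fun χ => ENNReal.ofReal (Bd χ * Real.exp (-Φ χ))) := by
  obtain ⟨ρ₀, hρ₀, hnear⟩ := sheets_near hm h
  refine ⟨ρ₀, hρ₀, ?_⟩
  intro ρ Q hρ hQ Φ k c₀ hc₀ hΦ hk u hu hu2 Bd hBd0 hBdc hBdi hBd
  have hd := hnear ρ Q hρ hQ
  generalize hVd : VV G sg Q ρ = V at *
  have hcov : ∀ p ∈ V, ∃ c : Sec G V, p ∈ (ech c).source := by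
    subst hVd
    exact fun p hp => hQ.chart hp
  obtain ⟨s, hs⟩ := exists_cover x hcov
  have hL : L2D (ech (G := G) (V := V)) V (fun c z => Real.exp (-Φ (c.s (cc z))))
      (fun c z => gaV G Q ρ (c.s (cc z))) := by
    subst hVd
    exact l2d hcov hΦ (smR_base (gaB_smooth hQ.pos hQ.holo))
      fun Ω s hs z hz u hu => gaV_pos hQ hs hz hu
  have hE : IsExh (ech (G := G) (V := V)) V (fun c z => gaV G Q ρ (c.s (cc z)))
      (exV G Q ρ) := by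
    subst hVd
    exact isExh hQ hd
  obtain ⟨μ, hμ0, hμ⟩ := hL.exists_measure s hs.subset
  have hD : IsDens (ech (G := G) (V := V)) (fun c z => Real.exp (-Φ (c.s (cc z)))) μ := ⟨hμ⟩
  have hVo : IsOpen V := isOpen_of_cover s hs
  have hres : μ.restrict V = μ := Measure.restrict_eq_self_of_ae_mem (by
    rw [ae_iff]
    exact hμ0)
  have hI : ∀ F : Pt B → ℝ, (∀ χ, 0 ≤ F χ) → ContinuousOn F V →
      ∫⁻ χ, ENNReal.ofReal (F χ) ∂μ =
        sumI G V (fun χ => ENNReal.ofReal (F χ * Real.exp (-Φ χ))) := by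
    intro F hF0 hF
    rw [lintegral_eq_sumI hD hμ0 s hs (hΦ.continuousOn hcov) (F := fun χ => ENNReal.ofReal (F χ))
      (ENNReal.continuous_ofReal.comp_continuousOn hF)]
    simp only [ENNReal.ofReal_mul (hF0 _)]
  have hint : ∀ F : Pt B → ℝ, (∀ χ, 0 ≤ F χ) → ContinuousOn F V →
      sumI G V (fun χ => ENNReal.ofReal (F χ * Real.exp (-Φ χ))) ≠ ⊤ → Integrable F μ := by
    intro F hF0 hF hfin
    have h1 : AEStronglyMeasurable F μ := by
      rw [← hres]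
      exact hF.aestronglyMeasurable hVo.measurableSet
    refine ⟨h1, ?_⟩
    rw [hasFiniteIntegral_iff_ofReal (Eventually.of_forall hF0), hI F hF0 hF]
    exact hfin.lt_top
  have hBdV : ContinuousOn Bd V := continuousOn_of_sec hcov fun c => hBdc _ _ c.isSec
  have huV : ContinuousOn u V := hu.continuousOn hcov
  have hum : AEStronglyMeasurable u μ := by
    rw [← hres]
    exact huV.aestronglyMeasurable hVo.measurableSet
  have huL : MemLp u 2 μ := (memLp_two_iff_integrable_sq_norm hum).2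
    (hint (fun χ => ‖u χ‖ ^ 2) (fun χ => by positivity) (huV.norm.pow 2) hu2)
  have hBi : Integrable Bd μ := hint Bd hBd0 hBdV hBdi
  obtain ⟨b, hb, hb2, hle⟩ := hD.hormander hL hE s hs.subset hμ0
    (k := fun c z => k (c.s (cc z))) hc₀ (fun c z hz v => (hk _ _ c.isSec z hz v).1)
    (fun c z hz v => by
      have h1 : (fun x : Cn n => -Real.log (Real.exp (-Φ (c.s (cc x))))) =
          fun x => Φ (c.s (cc x)) := by
        funext x
        rw [Real.log_exp, neg_neg]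
      rw [h1]
      exact (hk _ _ c.isSec z hz v).2)
    (χ := u) (fun c => hu _ _ c.isSec) huL (B := Bd) hBd0 hBi
    (fun c z hz v => hBd _ _ c.isSec z hz v)
  have hbH : HolV G V b := by
    intro Ω s' h'
    have hDn : ∀ w ∈ Ω, eval w G.D ≠ 0 := by
      subst hVd
      exact fun w hw => hQ.D_ne w (sec_BB h' hw).1 (sec_BB h' hw).2
    exact differentiableOn_of_dzb (f := fun w => b (s' w)) h'.isOpen
      (hb ⟨Ω, s', h', hDn⟩).1 fun z hz k => (hb ⟨Ω, s', h', hDn⟩).2 k z hz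
  have hbV : ContinuousOn b V :=
    continuousOn_of_sec hcov fun c => (hbH _ _ c.isSec).continuousOn
  have hb2i : Integrable (fun χ => ‖b χ‖ ^ 2) μ := hb2.integrable_norm_pow (by norm_num)
  have hubi : Integrable (fun χ => ‖u χ - b χ‖ ^ 2) μ :=
    (huL.sub hb2).integrable_norm_pow (by norm_num)
  refine ⟨b, hbH, ?_, ?_⟩
  · rw [← hI (fun χ => ‖b χ‖ ^ 2) (fun χ => by positivity) (hbV.norm.pow 2)]
    have h1 := hb2i.2
    rw [hasFiniteIntegral_iff_ofReal (Eventually.of_forall fun χ => by positivity)] at h1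
    exact h1.ne
  · rw [← hI (fun χ => ‖u χ - b χ‖ ^ 2) (fun χ => by positivity) ((huV.sub hbV).norm.pow 2),
      ← hI Bd hBd0 hBdV,
      ← ofReal_integral_eq_lintegral_ofReal hubi (Eventually.of_forall fun χ => by positivity),
      ← ofReal_integral_eq_lintegral_ofReal hBi (Eventually.of_forall hBd0),
      ← ENNReal.ofReal_mul (inv_pos.2 hc₀).le]
    exact ENNReal.ofReal_le_ofReal hle

end Pool.Agent.Odp3
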