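import Pool.Agent.Odp3.Horm.Defs
import Pool.Agent.Odp3.Horm.Sheets
import Pool.Agent.Odp3.Horm.CutAux

open scoped ContDiff Topology ENNReal NNReal WithZero
open Set MeasureTheory Filter MvPolynomial Pool.Agent.ODP Pool.Agent.ToricKRF
  Pool.Agent.ToricKRF.G Pool.Agent.KRFS Pool.Agent.KRFQ

namespace Pool.Agent.Odp3

open Pool.Agent.KRFX Pool.Agent.KRFF.NF Pool.Agent.KRFG

section

variable {n d : ℕ} {B : Type} [CommRing B] [Algebra ℂ B] {G : Germ n d B}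

/-- comparison of fibre integrals -/
theorem cut_sumI_le {S S' : Set (Pt B)} {F F' : Pt B → ℝ≥0∞} {c : ℝ≥0∞} (hc : c ≠ ⊤)
    (h : ∀ χ ∈ S, (χ ∈ S' ∧ F χ ≤ c * F' χ) ∨ F χ = 0) :
    sumI G S F ≤ c * sumI G S' F' := by
  unfold sumI
  rw [← lintegral_const_mul' _ _ hc]
  refine lintegral_mono fun w => ?_
  rw [← ENNReal.tsum_mul_left]
  have h1 : (∑' χ : {χ : Pt B // χ ∈ S ∧ proj G.y χ = w}, F χ) =
      ∑' χ : Pt B, ({χ : Pt B | χ ∈ S ∧ proj G.y χ = w}).indicator F χ :=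
    tsum_subtype {χ : Pt B | χ ∈ S ∧ proj G.y χ = w} F
  have h2 : (∑' χ : {χ : Pt B // χ ∈ S' ∧ proj G.y χ = w}, c * F' χ) =
      ∑' χ : Pt B, ({χ : Pt B | χ ∈ S' ∧ proj G.y χ = w}).indicator (fun χ => c * F' χ) χ :=
    tsum_subtype {χ : Pt B | χ ∈ S' ∧ proj G.y χ = w} fun χ => c * F' χ
  rw [h1, h2]
  refine ENNReal.tsum_le_tsum fun χ => ?_
  by_cases hχ : χ ∈ S ∧ proj G.y χ = w
  · rw [indicator_of_mem (s := {χ : Pt B | χ ∈ S ∧ proj G.y χ = w}) hχ]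
    rcases h χ hχ.1 with h3 | h3
    · rw [indicator_of_mem (s := {χ : Pt B | χ ∈ S' ∧ proj G.y χ = w}) ⟨h3.1, hχ.2⟩]
      exact h3.2
    · rw [h3]
      exact zero_le
  · rw [indicator_of_notMem (s := {χ : Pt B | χ ∈ S ∧ proj G.y χ = w}) hχ]
    exact zero_le

theorem cut_sumI_congr {S : Set (Pt B)} {F F' : Pt B → ℝ≥0∞} (h : ∀ χ ∈ S, F χ = F' χ) :
    sumI G S F = sumI G S F' := by
  refine le_antisymm ?_ ?_
  · have := cut_sumI_le (G := G) (S := S) (S' := S) (F := F) (F' := F') ENNReal.one_ne_top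
      fun χ hχ => Or.inl ⟨hχ, by rw [one_mul, h χ hχ]⟩
    rwa [one_mul] at this
  · have := cut_sumI_le (G := G) (S := S) (S' := S) (F := F') (F' := F) ENNReal.one_ne_top
      fun χ hχ => Or.inl ⟨hχ, by rw [one_mul, h χ hχ]⟩
    rwa [one_mul] at this

/-- the weight function `Φ` of Theorem M -/
noncomputable def cutPhi (G : Germ n d B) {L : ℕ} (F : Fin L → B) (h : B) (η A r δ s : ℝ)
    (χ : Pt B) : ℝ :=
  A * Real.log (∑ l, ‖χ (F l)‖ ^ 2 + η) + δ * Real.log (nq (proj G.y χ) + r ^ 2) +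
    s * Real.log (Complex.normSq (χ h))

theorem cut_nq_nonneg (w : Fin n → ℂ) : 0 ≤ nq w := by
  unfold nq
  positivity

theorem cut_exp_phi {L : ℕ} (F : Fin L → B) {h : B} {η A r δ s : ℝ} (hη : 0 < η) (hr : 0 < r)
    {χ : Pt B} (hχ : χ h ≠ 0) :
    Real.exp (-cutPhi G F h η A r δ s χ) = wt G F h η A r δ s χ := by
  have h1 : 0 < ∑ l, ‖χ (F l)‖ ^ 2 + η := by positivity
  have h2 : 0 < nq (proj G.y χ) + r ^ 2 := by
    have := cut_nq_nonneg (proj G.y χ)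
    positivity
  have h3 : 0 < ‖χ h‖ := norm_pos_iff.2 hχ
  unfold cutPhi wt
  rw [Real.rpow_def_of_pos h1, Real.rpow_def_of_pos h2, Real.rpow_def_of_pos h3, ← Real.exp_add,
    ← Real.exp_add, Complex.normSq_eq_norm_sq, Real.log_pow]
  congr 1
  push_cast
  ring

theorem cut_wt_le {L : ℕ} (F : Fin L → B) {h : B} {η A r δ s : ℝ} (hη : 0 < η) (hA : 0 ≤ A)
    (hr : 0 < r) (hδ : 0 < δ) (χ : Pt B) :
    wt G F h η A r δ s χ ≤ η ^ (-A) * (r ^ 2) ^ (-δ) * ‖χ h‖ ^ (-(2 * s)) := by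
  have h1 : (∑ l, ‖χ (F l)‖ ^ 2 + η) ^ (-A) ≤ η ^ (-A) := by
    refine Real.rpow_le_rpow_of_nonpos hη ?_ (by linarith)
    have : 0 ≤ ∑ l, ‖χ (F l)‖ ^ 2 := by positivity
    linarith
  have h2 : (nq (proj G.y χ) + r ^ 2) ^ (-δ) ≤ (r ^ 2) ^ (-δ) := by
    refine Real.rpow_le_rpow_of_nonpos (by positivity) ?_ (by linarith)
    have := cut_nq_nonneg (proj G.y χ)
    linarith
  have h3 : 0 ≤ ‖χ h‖ ^ (-(2 * s)) := by positivity
  have h4 : 0 ≤ (nq (proj G.y χ) + r ^ 2) ^ (-δ) := by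
    have := cut_nq_nonneg (proj G.y χ)
    positivity
  unfold wt
  refine mul_le_mul_of_nonneg_right ?_ h3
  exact mul_le_mul h1 h2 h4 (by positivity)

theorem cut_wt_nonneg {L : ℕ} (F : Fin L → B) {h : B} {η A r δ s : ℝ} (hη : 0 < η)
    (χ : Pt B) : 0 ≤ wt G F h η A r δ s χ := by
  have h4 : 0 ≤ nq (proj G.y χ) + r ^ 2 := by
    have := cut_nq_nonneg (proj G.y χ)
    positivity
  unfold wt
  positivity

variable {V : Set (Pt B)} {Ω : Set (Fin n → ℂ)} {s : (Fin n → ℂ) → Pt B}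

theorem cut_sec_holC (hs : IsSec G V Ω s) (b : B) :
    HolC (fun z : Cn n => s (cc z) b) {z | cc z ∈ Ω} :=
  cut_holC hs.isOpen (hs.holo b)

theorem cut_sec_nq (hs : IsSec G V Ω s) {z : Cn n} (hz : cc z ∈ Ω) :
    nq (proj G.y (s (cc z))) = nsq z := by
  rw [hs.proj _ hz, cut_nq_cc]

theorem cut_phi_sec (hs : IsSec G V Ω s) {L : ℕ} (F : Fin L → B) (h : B) (η A r δ t : ℝ)
    {z : Cn n} (hz : cc z ∈ Ω) :
    cutPhi G F h η A r δ t (s (cc z)) =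
      A * Real.log (∑ l, ‖s (cc z) (F l)‖ ^ 2 + η) + δ * Real.log (nsq z + r ^ 2) +
        t * Real.log (Complex.normSq (s (cc z) h)) := by
  unfold cutPhi
  rw [cut_sec_nq hs hz]

theorem cut_contDiffOn_h (hs : IsSec G V Ω s) {h : B} (hh : ∀ χ ∈ V, χ h ≠ 0) :
    ContDiffOn ℝ ∞ (fun z : Cn n => Real.log (Complex.normSq (s (cc z) h))) {z | cc z ∈ Ω} := by
  have h1 := (cut_sec_holC hs h).1
  have h2 : ContDiffOn ℝ ∞ (fun z : Cn n => Complex.normSq (s (cc z) h)) {z | cc z ∈ Ω} := by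
    simp only [Complex.normSq_apply]
    have hre : ContDiffOn ℝ ∞ (fun z : Cn n => (s (cc z) h).re) {z | cc z ∈ Ω} :=
      Complex.reCLM.contDiff.comp_contDiffOn h1
    have him : ContDiffOn ℝ ∞ (fun z : Cn n => (s (cc z) h).im) {z | cc z ∈ Ω} :=
      Complex.imCLM.contDiff.comp_contDiffOn h1
    exact (hre.mul hre).add (him.mul him)
  exact h2.log fun z hz => (Complex.normSq_pos.2 (hh _ (hs.mem _ hz))).ne'

theorem cut_contDiffOn_k {r : ℝ} (hr : 0 < r) (S : Set (Cn n)) :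
    ContDiffOn ℝ ∞ (fun z : Cn n => Real.log (nsq z + r ^ 2)) S :=
  (cut_contDiff_log (by positivity)).contDiffOn

theorem cut_smR_phi {L : ℕ} (F : Fin L → B) {h : B} (hh : ∀ χ ∈ V, χ h ≠ 0) {η A r δ t : ℝ}
    (hη : 0 < η) (hr : 0 < r) : SmR G V (cutPhi G F h η A r δ t) := by
  intro Ω s hs
  refine ContDiffOn.congr ?_ fun z hz => cut_phi_sec hs F h η A r δ t hz
  have h1 := cut_contDiffOn_logF (F := fun l (z : Cn n) => s (cc z) (F l))
    (fun l => (cut_sec_holC hs (F l)).1) hη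
  exact ((contDiffOn_const.mul h1).add (contDiffOn_const.mul (cut_contDiffOn_k hr _))).add
    (contDiffOn_const.mul (cut_contDiffOn_h hs hh))

theorem cut_levz_phi (hs : IsSec G V Ω s) {L : ℕ} (F : Fin L → B) {h : B}
    (hh : ∀ χ ∈ V, χ h ≠ 0) {η A r δ t : ℝ} (hη : 0 < η) (hA : 0 ≤ A) (hr : 0 < r) {z : Cn n}
    (hz : cc z ∈ Ω) (u : Cn n) :
    δ * levz (fun z => Real.log (nsq z + r ^ 2)) u z ≤
      levz (fun z => cutPhi G F h η A r δ t (s (cc z))) u z := by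
  have hS : IsOpen {z : Cn n | cc z ∈ Ω} := cut_isOpen hs.isOpen
  have hzS : z ∈ {z : Cn n | cc z ∈ Ω} := hz
  have hev : (fun z => cutPhi G F h η A r δ t (s (cc z))) =ᶠ[𝓝 z] fun z =>
      (A * Real.log (∑ l, ‖s (cc z) (F l)‖ ^ 2 + η) + δ * Real.log (nsq z + r ^ 2)) +
        t * Real.log (Complex.normSq (s (cc z) h)) := by
    filter_upwards [hS.mem_nhds hzS] with z' hz'
    exact cut_phi_sec hs F h η A r δ t hz'
  have c1 : ContDiffAt ℝ 2 (fun z : Cn n => Real.log (∑ l, ‖s (cc z) (F l)‖ ^ 2 + η)) z :=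
    ((cut_contDiffOn_logF (F := fun l (z : Cn n) => s (cc z) (F l))
      (fun l => (cut_sec_holC hs (F l)).1) hη).contDiffAt (hS.mem_nhds hzS)).of_le two_le_infty
  have c2 : ContDiffAt ℝ 2 (fun z : Cn n => Real.log (nsq z + r ^ 2)) z :=
    ((cut_contDiffOn_k hr univ).contDiffAt univ_mem).of_le two_le_infty
  have c3 : ContDiffAt ℝ 2 (fun z : Cn n => Real.log (Complex.normSq (s (cc z) h))) z :=
    ((cut_contDiffOn_h hs hh).contDiffAt (hS.mem_nhds hzS)).of_le two_le_infty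
  rw [Bd.levz_congr hev, Bd.levz_add ((contDiffAt_const.mul c1).add (contDiffAt_const.mul c2))
    (contDiffAt_const.mul c3), Bd.levz_add (contDiffAt_const.mul c1) (contDiffAt_const.mul c2),
    Bd.levz_const_mul _ c1, Bd.levz_const_mul _ c2, Bd.levz_const_mul _ c3,
    levz_log_normSq hS (cut_sec_holC hs h) hzS (hh _ (hs.mem _ hz))]
  have h1 := cut_levz_logF (F := fun l (z : Cn n) => s (cc z) (F l)) hS
    (fun l => cut_sec_holC hs (F l)) hη hzS u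
  have h2 := mul_nonneg hA h1
  linarith

end

theorem cut_solve {n d : ℕ} {B : Type} [CommRing B] [Algebra ℂ B] {G : Germ n d B} {x : Pt B}
    {sg : B} {m : ℕ} (hm : 1 ≤ m) (hsg : IsSep G x m sg) :
    ∃ ρ₀ C₀ : ℝ, 0 < ρ₀ ∧ 0 < C₀ ∧ ∀ (ρ : ℝ) (Q : (Fin n → ℂ) → ℂ), ρ ≤ ρ₀ → IsQ G Q ρ →
      ∀ h : B, (∀ χ ∈ VV G sg Q ρ, χ h ≠ 0) → ∀ s : ℝ, 0 ≤ s →
      sumI G (VV G sg Q ρ) (fun χ => ENNReal.ofReal (‖χ h‖ ^ (-(2 * s)))) ≠ ⊤ →
      ∀ (L : ℕ) (F : Fin L → B) (η A r δ : ℝ), 0 < η → 0 ≤ A → 0 < r → 0 < δ → ∀ z : B,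
      ∃ Z : Pt B → ℂ, HolV G (VV G sg Q ρ) Z ∧
        sumI G (VV G sg Q ρ) (fun χ => ENNReal.ofReal (‖Z χ‖ ^ 2 * wt G F h η A r δ s χ)) ≠ ⊤ ∧
        sumI G (VV G sg Q ρ) (fun χ => ENNReal.ofReal
          (‖(cutf (nq (proj G.y χ) / r ^ 2) : ℂ) * χ z - Z χ‖ ^ 2 *
            wt G F h η A r δ s χ)) ≤
          ENNReal.ofReal (C₀ / δ) * sumI G {χ | χ ∈ VV G sg Q ρ ∧ r ^ 2 ≤ nq (proj G.y χ) ∧
            nq (proj G.y χ) ≤ 4 * r ^ 2} (fun χ => ENNReal.ofReal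
              (‖χ z‖ ^ 2 * wt G F h η A r δ s χ)) := by
  obtain ⟨ρ₀, hρ₀, H⟩ := horm_sheets (G := G) hm hsg
  obtain ⟨M, hM0, hM⟩ := cut_deriv_bdd
  refine ⟨ρ₀, 100 * M, hρ₀, by positivity, fun ρ Q hρ hQ h hh s hs hfin L F η A r δ hη hA hr hδ z =>
    ?_⟩
  set V := VV G sg Q ρ with hV
  have hr2 : 0 < r ^ 2 := by positivity
  -- bounds on `V`
  obtain ⟨Cz, hCz⟩ := G.bdd z (ρ ^ 2)
  have hzb : ∀ χ ∈ V, ‖χ z‖ ≤ Cz := fun χ hχ => hCz χ hχ.1.le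
  have hK0 : 0 ≤ η ^ (-A) * (r ^ 2) ^ (-δ) := by positivity
  have hexp : ∀ χ ∈ V, Real.exp (-cutPhi G F h η A r δ s χ) = wt G F h η A r δ s χ :=
    fun χ hχ => cut_exp_phi F hη hr (hh χ hχ)
  set u : Pt B → ℂ := fun χ => (cutf (nq (proj G.y χ) / r ^ 2) : ℂ) * χ z with hu
  set Bd : Pt B → ℝ := fun χ => 100 * ‖χ z‖ ^ 2 * deriv cutf (nq (proj G.y χ) / r ^ 2) ^ 2 with hBd
  -- sections
  have hsecu : ∀ Ω σ, IsSec G V Ω σ → ∀ z' ∈ {z' : Cn n | cc z' ∈ Ω},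
      u (σ (cc z')) = ((cutf (nsq z' / r ^ 2) : ℝ) : ℂ) * σ (cc z') z := by
    intro Ω σ hσ z' hz'
    simp only [hu]
    rw [cut_sec_nq hσ hz']
  have hseck : ∀ Ω σ, IsSec G V Ω σ → ∀ z' ∈ {z' : Cn n | cc z' ∈ Ω},
      (fun χ : Pt B => Real.log (nq (proj G.y χ) + r ^ 2)) (σ (cc z')) =
        Real.log (nsq z' + r ^ 2) := by
    intro Ω σ hσ z' hz'
    simp only
    rw [cut_sec_nq hσ hz']
  have hlevk : ∀ Ω σ, IsSec G V Ω σ → ∀ z' : Cn n, cc z' ∈ Ω → ∀ v : Cn n,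
      levz (fun z => (fun χ : Pt B => Real.log (nq (proj G.y χ) + r ^ 2)) (σ (cc z))) v z' =
        levz (fun z => Real.log (nsq z + r ^ 2)) v z' := by
    intro Ω σ hσ z' hz' v
    refine Pool.Agent.KRFS.Bd.levz_congr ?_ v
    filter_upwards [(cut_isOpen hσ.isOpen).mem_nhds hz'] with z'' hz''
    exact hseck Ω σ hσ z'' hz''
  have hBd0 : ∀ χ, 0 ≤ Bd χ := fun χ => by
    simp only [hBd]
    positivity
  -- finiteness
  have hfin1 : sumI G V (fun χ => ENNReal.ofReal (‖u χ‖ ^ 2 *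
      Real.exp (-cutPhi G F h η A r δ s χ))) ≠ ⊤ := by
    refine ne_top_of_le_ne_top (ENNReal.mul_ne_top (ENNReal.ofReal_ne_top
      (r := Cz ^ 2 * (η ^ (-A) * (r ^ 2) ^ (-δ)))) hfin)
      (cut_sumI_le ENNReal.ofReal_ne_top fun χ hχ => Or.inl ⟨hχ, ?_⟩)
    rw [← ENNReal.ofReal_mul (by positivity)]
    refine ENNReal.ofReal_le_ofReal ?_
    rw [hexp χ hχ]
    have h1 : ‖u χ‖ ^ 2 ≤ Cz ^ 2 := by
      have h2 : ‖u χ‖ ≤ Cz := by
        simp only [hu]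
        rw [norm_mul, Complex.norm_real, Real.norm_eq_abs, abs_of_nonneg (cut_cutf_nonneg _)]
        calc cutf (nq (proj G.y χ) / r ^ 2) * ‖χ z‖ ≤ 1 * ‖χ z‖ := by
              gcongr
              exact cut_cutf_le_one _
          _ ≤ Cz := by rw [one_mul]; exact hzb χ hχ
      gcongr
    have h3 := cut_wt_le (G := G) F (h := h) (s := s) hη hA hr hδ χ
    have h4 := cut_wt_nonneg (G := G) F (h := h) (A := A) (r := r) (δ := δ) (s := s) hη χ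
    calc ‖u χ‖ ^ 2 * wt G F h η A r δ s χ
        ≤ Cz ^ 2 * (η ^ (-A) * (r ^ 2) ^ (-δ) * ‖χ h‖ ^ (-(2 * s))) :=
          mul_le_mul h1 h3 h4 (by positivity)
      _ = _ := by ring
  -- the bound of `Bd`
  have hBdle : ∀ χ ∈ V, (χ ∈ {χ | χ ∈ V ∧ r ^ 2 ≤ nq (proj G.y χ) ∧
        nq (proj G.y χ) ≤ 4 * r ^ 2} ∧ ENNReal.ofReal (Bd χ *
          Real.exp (-cutPhi G F h η A r δ s χ)) ≤ ENNReal.ofReal (100 * M) *
            ENNReal.ofReal (‖χ z‖ ^ 2 * wt G F h η A r δ s χ)) ∨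
      ENNReal.ofReal (Bd χ * Real.exp (-cutPhi G F h η A r δ s χ)) = 0 := by
    intro χ hχ
    by_cases h0 : deriv cutf (nq (proj G.y χ) / r ^ 2) = 0
    · right
      simp only [hBd]
      rw [h0]
      simp
    · left
      obtain ⟨h1, h2⟩ := cut_mem_shell h0
      rw [le_div_iff₀ hr2, one_mul] at h1
      rw [div_le_iff₀ hr2] at h2
      refine ⟨⟨hχ, h1, h2⟩, ?_⟩
      rw [← ENNReal.ofReal_mul (by positivity)]
      refine ENNReal.ofReal_le_ofReal ?_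
      rw [hexp χ hχ]
      have h3 := hM (nq (proj G.y χ) / r ^ 2)
      have h4 := cut_wt_nonneg (G := G) F (h := h) (A := A) (r := r) (δ := δ) (s := s) hη χ
      simp only [hBd]
      calc 100 * ‖χ z‖ ^ 2 * deriv cutf (nq (proj G.y χ) / r ^ 2) ^ 2 * wt G F h η A r δ s χ
          ≤ 100 * ‖χ z‖ ^ 2 * M * wt G F h η A r δ s χ := by gcongr
        _ = _ := by ring
  have hfin2 : sumI G V (fun χ => ENNReal.ofReal (Bd χ *
      Real.exp (-cutPhi G F h η A r δ s χ))) ≠ ⊤ := by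
    refine ne_top_of_le_ne_top (ENNReal.mul_ne_top (ENNReal.ofReal_ne_top
      (r := 100 * M * Cz ^ 2 * (η ^ (-A) * (r ^ 2) ^ (-δ)))) hfin)
      (cut_sumI_le ENNReal.ofReal_ne_top fun χ hχ => Or.inl ⟨hχ, ?_⟩)
    rw [← ENNReal.ofReal_mul (by positivity)]
    refine ENNReal.ofReal_le_ofReal ?_
    rw [hexp χ hχ]
    have h3 := hM (nq (proj G.y χ) / r ^ 2)
    have h4 := cut_wt_nonneg (G := G) F (h := h) (A := A) (r := r) (δ := δ) (s := s) hη χ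
    have h5 := cut_wt_le (G := G) F (h := h) (s := s) hη hA hr hδ χ
    have h6 : ‖χ z‖ ^ 2 ≤ Cz ^ 2 := by
      have := hzb χ hχ
      gcongr
    simp only [hBd]
    calc 100 * ‖χ z‖ ^ 2 * deriv cutf (nq (proj G.y χ) / r ^ 2) ^ 2 * wt G F h η A r δ s χ
        ≤ 100 * Cz ^ 2 * M * (η ^ (-A) * (r ^ 2) ^ (-δ) * ‖χ h‖ ^ (-(2 * s))) := by gcongr
      _ = _ := by ring
  obtain ⟨b, hb1, hb2, hb3⟩ := H ρ Q hρ hQ (cutPhi G F h η A r δ s)
    (fun χ => Real.log (nq (proj G.y χ) + r ^ 2)) δ hδ (cut_smR_phi F hh hη hr)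
    (fun Ω σ hσ z' hz' v => by
      rw [hlevk Ω σ hσ z' hz' v]
      refine ⟨?_, cut_levz_phi hσ F hh hη hA hr hz' v⟩
      refine le_trans ?_ (cut_le_levz_log hr2 z' v)
      have := NC.nsq_nonneg v
      positivity)
    u
    (fun Ω σ hσ => by
      refine ContDiffOn.congr ?_ (hsecu Ω σ hσ)
      have h1 : ContDiff ℝ ∞ (fun z' : Cn n => ((cutf (nsq z' / r ^ 2) : ℝ) : ℂ)) :=
        Complex.ofRealCLM.contDiff.comp (cut_contDiff_cutf.comp
          (NC.contDiff_nsq.div_const (r ^ 2)))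
      exact h1.contDiffOn.mul (cut_sec_holC hσ z).1)
    hfin1 Bd hBd0
    (fun Ω σ hσ => by
      have h1 : ContinuousOn (fun w : Fin n → ℂ => 100 * ‖σ w z‖ ^ 2 *
          deriv cutf (nq w / r ^ 2) ^ 2) Ω := by
        have h2 : ContinuousOn (fun w => σ w z) Ω := (hσ.holo z).continuousOn
        have h3 : Continuous (fun w : Fin n → ℂ => nq w / r ^ 2) := by
          unfold nq
          fun_prop
        exact (continuousOn_const.mul (h2.norm.pow 2)).mul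
          ((cut_continuous_deriv.comp h3).pow 2).continuousOn
      refine h1.congr fun w hw => ?_
      simp only [hBd]
      rw [hσ.proj w hw])
    hfin2
    (fun Ω σ hσ z' hz' v => by
      rw [hlevk Ω σ hσ z' hz' v]
      have h1 := cut_dbar_le (cut_isOpen hσ.isOpen) (cut_sec_holC hσ z) hz' hr v
      have h2 : ∀ j, dzb j (fun z' => u (σ (cc z'))) z' =
          dzb j (fun z' : Cn n => ((cutf (nsq z' / r ^ 2) : ℝ) : ℂ) * σ (cc z') z) z' := by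
        intro j
        refine dzb_congr ?_ j
        filter_upwards [(cut_isOpen hσ.isOpen).mem_nhds hz'] with z'' hz''
        exact hsecu Ω σ hσ z'' hz''
      simp only [h2]
      simp only [hBd]
      rw [cut_sec_nq hσ hz']
      exact h1)
  refine ⟨b, hb1, ?_, ?_⟩
  · rwa [cut_sumI_congr (G := G) (F' := fun χ => ENNReal.ofReal (‖b χ‖ ^ 2 *
      Real.exp (-cutPhi G F h η A r δ s χ))) fun χ hχ => by rw [hexp χ hχ]]
  · rw [cut_sumI_congr (G := G) (F' := fun χ => ENNReal.ofReal (‖u χ - b χ‖ ^ 2 *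
      Real.exp (-cutPhi G F h η A r δ s χ))) fun χ hχ => by rw [hexp χ hχ]]
    refine hb3.trans ?_
    have h1 := cut_sumI_le (G := G) (F := fun χ => ENNReal.ofReal (Bd χ *
      Real.exp (-cutPhi G F h η A r δ s χ))) ENNReal.ofReal_ne_top hBdle
    calc ENNReal.ofReal δ⁻¹ * sumI G V (fun χ => ENNReal.ofReal (Bd χ *
          Real.exp (-cutPhi G F h η A r δ s χ)))
        ≤ ENNReal.ofReal δ⁻¹ * (ENNReal.ofReal (100 * M) *
          sumI G {χ | χ ∈ V ∧ r ^ 2 ≤ nq (proj G.y χ) ∧ nq (proj G.y χ) ≤ 4 * r ^ 2}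
            (fun χ => ENNReal.ofReal (‖χ z‖ ^ 2 * wt G F h η A r δ s χ))) := by gcongr
      _ = _ := by
        rw [← mul_assoc, ← ENNReal.ofReal_mul (by positivity)]
        congr 2
        rw [div_eq_mul_inv, mul_comm]

end Pool.Agent.Odp3
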