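import Pool.Agent.Odp3.Defs
import Pool.Agent.Odp3.Pt.Sect
import Pool.Agent.Odp3.Pt.Bdd
import Pool.Agent.Odp3.An.Null
import Pool.Agent.Odp3.An.Ext

open scoped ContDiff Topology ENNReal NNReal WithZero
open Set MeasureTheory Filter MvPolynomial Pool.Agent.ODP

namespace Pool.Agent.Odp3

lemma dual_isOpen_bal (n : ℕ) (ρ : ℝ) : IsOpen (bal n ρ) := by
  have hc : Continuous (fun w : Fin n → ℂ => nq w) := by
    unfold nq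
    fun_prop
  exact isOpen_lt hc continuous_const

lemma dual_isOpen_Q {n : ℕ} {ρ : ℝ} {Q : (Fin n → ℂ) → ℂ} (hQ : DifferentiableOn ℂ Q (bal n ρ)) :
    IsOpen {w | w ∈ bal n ρ ∧ Q w ≠ 0} := by
  have h := hQ.continuousOn.isOpen_inter_preimage (dual_isOpen_bal n ρ)
    (isOpen_compl_singleton (x := (0 : ℂ)))
  have he : {w | w ∈ bal n ρ ∧ Q w ≠ 0} = bal n ρ ∩ Q ⁻¹' {0}ᶜ := by
    ext w
    simp
  rw [he]
  exact h

lemma dual_enorm_sq_sum_le {α : Type*} (s : Finset α) (f : α → ℂ) :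
    ‖∑ k ∈ s, f k‖ₑ ^ 2 ≤ s.card * ∑ k ∈ s, ‖f k‖ₑ ^ 2 := by
  have h1 : ∀ z : ℂ, ‖z‖ₑ ^ 2 = ENNReal.ofReal (‖z‖ ^ 2) := fun z => by
    rw [← ofReal_norm_eq_enorm, ENNReal.ofReal_pow (norm_nonneg z)]
  simp only [h1]
  rw [← ENNReal.ofReal_sum_of_nonneg fun k _ => sq_nonneg _,
    show ((s.card : ℕ) : ℝ≥0∞) = ENNReal.ofReal (s.card : ℝ) from
      (ENNReal.ofReal_natCast _).symm,
    ← ENNReal.ofReal_mul (by positivity)]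
  refine ENNReal.ofReal_le_ofReal ?_
  calc ‖∑ k ∈ s, f k‖ ^ 2 ≤ (∑ k ∈ s, ‖f k‖) ^ 2 := by
        gcongr
        exact norm_sum_le _ _
    _ ≤ _ := sq_sum_le_card_mul_sum_sq

section

variable {n d : ℕ} {B : Type} [CommRing B] [Algebra ℂ B]

/-- the fibres over the points outside the discriminant are finite -/
lemma dual_finite (G : Germ n d B) {w : Fin n → ℂ} (h : eval w G.D ≠ 0) :
    {χ : Pt B | proj G.y χ = w}.Finite := by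
  obtain ⟨Ω, -, hw, s, -, -, hs⟩ := G.exists_sections h
  refine (Set.finite_range fun i => s i w).subset ?_
  intro χ hχ
  obtain ⟨i, hi⟩ := hs w hw χ hχ
  exact ⟨i, hi⟩

/-- the fibre of `VV` -/
def dualFib (G : Germ n d B) (sg : B) (Q : (Fin n → ℂ) → ℂ) (ρ : ℝ) (w : Fin n → ℂ) :
    Set (Pt B) := {χ : Pt B | χ ∈ VV G sg Q ρ ∧ proj G.y χ = w}

lemma dualFib_finite (G : Germ n d B) {sg : B} {Q : (Fin n → ℂ) → ℂ} {ρ : ℝ} {w : Fin n → ℂ}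
    (h : eval w G.D ≠ 0) : (dualFib G sg Q ρ w).Finite :=
  (dual_finite G h).subset fun _ hχ => hχ.2

lemma dualFib_ncard_le {G : Germ n d B} {sg : B} {Q : (Fin n → ℂ) → ℂ} {ρ : ℝ} {w : Fin n → ℂ}
    (h : eval w G.D ≠ 0) : (dualFib_finite G (sg := sg) (Q := Q) (ρ := ρ) h).toFinset.card ≤ d := by
  rw [← Set.ncard_eq_toFinset_card _ (dualFib_finite G h)]
  exact (Set.ncard_le_ncard (fun _ hχ => hχ.2) (dual_finite G h)).trans (G.card w h).le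

/-- the coefficients -/
noncomputable def dualF (G : Germ n d B) (sg : B) (Q : (Fin n → ℂ) → ℂ) (ρ : ℝ) (Z : Pt B → ℂ)
    (i : Fin d) (w : Fin n → ℂ) : ℂ :=
  ∑ᶠ χ ∈ {χ : Pt B | χ ∈ VV G sg Q ρ ∧ proj G.y χ = w}, χ (G.du i) * Z χ / eval w G.D

lemma dualF_eq (G : Germ n d B) {sg : B} {Q : (Fin n → ℂ) → ℂ} {ρ : ℝ} (Z : Pt B → ℂ)
    (i : Fin d) {w : Fin n → ℂ} (h : eval w G.D ≠ 0) : dualF G sg Q ρ Z i w =
      ∑ χ ∈ (dualFib_finite G (sg := sg) (Q := Q) (ρ := ρ) h).toFinset,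
        χ (G.du i) * Z χ / eval w G.D := by
  unfold dualF
  exact finsum_mem_eq_finite_toFinset_sum _ (dualFib_finite G h)

/-- inversion -/
lemma dualF_inv (G : Germ n d B) {sg : B} {Q : (Fin n → ℂ) → ℂ} {ρ : ℝ} (Z : Pt B → ℂ)
    {χ : Pt B} (hχ : χ ∈ VV G sg Q ρ) (h : eval (proj G.y χ) G.D ≠ 0) :
    Z χ = ∑ i, dualF G sg Q ρ Z i (proj G.y χ) * χ (G.e i) := by
  classical
  set w := proj G.y χ with hw
  have h1 : ∀ i, dualF G sg Q ρ Z i w * χ (G.e i) =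
      ∑ χ' ∈ (dualFib_finite G (sg := sg) (Q := Q) (ρ := ρ) h).toFinset,
        Z χ' / eval w G.D * (χ' (G.du i) * χ (G.e i)) := by
    intro i
    rw [dualF_eq G Z i h, Finset.sum_mul]
    refine Finset.sum_congr rfl fun χ' _ => ?_
    ring
  simp only [h1]
  rw [Finset.sum_comm]
  simp only [← Finset.mul_sum]
  have hmem : χ ∈ (dualFib_finite G (sg := sg) (Q := Q) (ρ := ρ) h).toFinset := by
    rw [Set.Finite.mem_toFinset]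
    exact ⟨hχ, rfl⟩
  rw [Finset.sum_eq_single_of_mem χ hmem]
  · rw [(G.du_spec w h χ χ rfl rfl).1 rfl, div_mul_cancel₀ _ h]
  · intro χ' hχ' hne
    rw [Set.Finite.mem_toFinset] at hχ'
    rw [(G.du_spec w h χ' χ hχ'.2 rfl).2 hne, mul_zero]

/-- the estimate -/
lemma dualF_le (G : Germ n d B) {sg : B} {Q : (Fin n → ℂ) → ℂ} {ρ : ℝ} (Z : Pt B → ℂ)
    (i : Fin d) {w : Fin n → ℂ} (h : eval w G.D ≠ 0) {ϖ : Pt B → ℝ≥0∞} {C : ℝ≥0}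
    (hϖ : ∀ χ ∈ VV G sg Q ρ, ‖χ (G.du i)‖ₑ ^ 2 ≤ C * ‖eval (proj G.y χ) G.D‖ₑ ^ 2 * ϖ χ) :
    ‖dualF G sg Q ρ Z i w‖ₑ ^ 2 ≤ (d * C : ℝ≥0∞) *
      ∑' χ : {χ : Pt B // χ ∈ VV G sg Q ρ ∧ proj G.y χ = w}, ‖Z χ‖ₑ ^ 2 * ϖ χ := by
  rw [dualF_eq G Z i h]
  refine (dual_enorm_sq_sum_le _ _).trans ?_
  have hD : ‖eval w G.D‖ₑ ^ 2 ≠ 0 := by simpa using h
  have hD' : ‖eval w G.D‖ₑ ^ 2 ≠ ⊤ := by finiteness
  have h1 : ∀ χ ∈ (dualFib_finite G (sg := sg) (Q := Q) (ρ := ρ) h).toFinset,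
      ‖χ (G.du i) * Z χ / eval w G.D‖ₑ ^ 2 ≤ C * (‖Z χ‖ₑ ^ 2 * ϖ χ) := by
    intro χ hχ
    rw [Set.Finite.mem_toFinset] at hχ
    have h2 := hϖ χ hχ.1
    rw [hχ.2] at h2
    rw [div_eq_mul_inv, enorm_mul, enorm_mul, enorm_inv h, mul_pow, mul_pow, ← ENNReal.inv_pow]
    calc ‖χ (G.du i)‖ₑ ^ 2 * ‖Z χ‖ₑ ^ 2 * (‖eval w G.D‖ₑ ^ 2)⁻¹
        ≤ (C * ‖eval w G.D‖ₑ ^ 2 * ϖ χ) * ‖Z χ‖ₑ ^ 2 * (‖eval w G.D‖ₑ ^ 2)⁻¹ := by gcongr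
      _ = C * (‖Z χ‖ₑ ^ 2 * ϖ χ) * (‖eval w G.D‖ₑ ^ 2 * (‖eval w G.D‖ₑ ^ 2)⁻¹) := by ring
      _ = C * (‖Z χ‖ₑ ^ 2 * ϖ χ) := by rw [ENNReal.mul_inv_cancel hD hD', mul_one]
  have h3 : ∑' χ : {χ : Pt B // χ ∈ VV G sg Q ρ ∧ proj G.y χ = w}, ‖Z χ‖ₑ ^ 2 * ϖ χ =
      ∑ χ ∈ (dualFib_finite G (sg := sg) (Q := Q) (ρ := ρ) h).toFinset, ‖Z χ‖ₑ ^ 2 * ϖ χ := by
    have : Fintype {χ : Pt B // χ ∈ VV G sg Q ρ ∧ proj G.y χ = w} :=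
      (dualFib_finite G (sg := sg) (Q := Q) (ρ := ρ) h).fintype
    rw [tsum_fintype]
    refine (Finset.sum_subtype _ (fun χ => ?_) fun χ => ‖Z χ‖ₑ ^ 2 * ϖ χ).symm
    rw [Set.Finite.mem_toFinset]
    rfl
  rw [h3]
  calc _ ≤ ((dualFib_finite G (sg := sg) (Q := Q) (ρ := ρ) h).toFinset.card : ℝ≥0∞) *
        ∑ χ ∈ (dualFib_finite G (sg := sg) (Q := Q) (ρ := ρ) h).toFinset,
          C * (‖Z χ‖ₑ ^ 2 * ϖ χ) := by
        gcongr with χ hχ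
        exact h1 χ hχ
    _ ≤ (d : ℝ≥0∞) * ∑ χ ∈ (dualFib_finite G (sg := sg) (Q := Q) (ρ := ρ) h).toFinset,
          C * (‖Z χ‖ₑ ^ 2 * ϖ χ) := by
        gcongr
        exact dualFib_ncard_le h
    _ = _ := by rw [← Finset.mul_sum, mul_assoc]

lemma dual_differentiable_eval (p : MvPolynomial (Fin n) ℂ) :
    Differentiable ℂ fun w : Fin n → ℂ => eval w p := by
  induction p using MvPolynomial.induction_on with
  | C a => simp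
  | add p q hp hq =>
    simp only [map_add]
    exact hp.fun_add hq
  | mul_X p j hp =>
    have : Differentiable ℂ fun w : Fin n → ℂ => w j := by fun_prop
    simp only [map_mul, eval_X]
    exact hp.fun_mul this

/-- the coefficients are holomorphic outside the zeros of `Q` -/
lemma dualF_holo {G : Germ n d B} {sg : B} {ρ₀ : ℝ}
    (hd : ∀ χ : Pt B, nq (proj G.y χ) < ρ₀ ^ 2 → ‖χ sg - 1‖ < 1 / 4 ∨ ‖χ sg‖ < 1 / 4)
    {Q : (Fin n → ℂ) → ℂ} {ρ : ℝ} (hρ : ρ ≤ ρ₀) (hQ : IsQ G Q ρ) {Z : Pt B → ℂ}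
    (hZ : HolV G (VV G sg Q ρ) Z) (i : Fin d) :
    DifferentiableOn ℂ (dualF G sg Q ρ Z i) {w | w ∈ bal n ρ ∧ Q w ≠ 0} := by
  classical
  intro w₀ hw₀
  have hA : IsOpen {w | w ∈ bal n ρ ∧ Q w ≠ 0} := dual_isOpen_Q hQ.holo
  have hD : eval w₀ G.D ≠ 0 := hQ.D_ne w₀ hw₀.1 hw₀.2
  obtain ⟨Ω, hΩ, hwΩ, s, hs, hinj, hsurj⟩ := G.exists_sections hD
  have hc : ∀ k, ContinuousOn (fun w => s k w sg) Ω := fun k => ((hs k).holo sg).continuousOn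
  have hca : ∀ k, ContinuousAt (fun w => s k w sg) w₀ := fun k =>
    (hc k).continuousAt (hΩ.mem_nhds hwΩ)
  have hmem : ∀ k, ∀ w ∈ Ω, w ∈ bal n ρ → Q w ≠ 0 → (s k w ∈ VV G sg Q ρ ↔
      ‖s k w sg - 1‖ < 1 / 2) := by
    intro k w hw hb hq
    have hp := (hs k).proj w hw
    simp only [VV, Set.mem_setOf_eq, hp]
    exact ⟨fun h => h.2.2, fun h => ⟨hb, hq, h⟩⟩
  have hloc : ∀ k, ∀ᶠ w in 𝓝 w₀, (s k w ∈ VV G sg Q ρ ↔ s k w₀ ∈ VV G sg Q ρ) := by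
    intro k
    have hev := (hΩ.inter hA).mem_nhds ⟨hwΩ, hw₀⟩
    have hn : nq (proj G.y (s k w₀)) < ρ₀ ^ 2 := by
      rw [(hs k).proj w₀ hwΩ]
      have := hQ.pos
      exact lt_of_lt_of_le hw₀.1 (by gcongr)
    rcases hd _ hn with h1 | h1
    · have h2 : ∀ᶠ w in 𝓝 w₀, ‖s k w sg - 1‖ < 1 / 2 :=
        ((hca k).sub continuousAt_const).norm.eventually_lt continuousAt_const
          (lt_trans h1 (by norm_num))
      filter_upwards [hev, h2] with w hw h3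
      rw [hmem k w hw.1 hw.2.1 hw.2.2, hmem k w₀ hwΩ hw₀.1 hw₀.2]
      exact ⟨fun _ => lt_trans h1 (by norm_num), fun _ => h3⟩
    · have h2 : ∀ᶠ w in 𝓝 w₀, ‖s k w sg‖ < 1 / 4 :=
        (hca k).norm.eventually_lt continuousAt_const h1
      have h4 : ∀ c : ℂ, ‖c‖ < 1 / 4 → ¬ ‖c - 1‖ < 1 / 2 := by
        intro c hc1 hc2
        have h5 : (1 : ℝ) ≤ ‖c‖ + ‖c - 1‖ := by
          have := norm_sub_le c (c - 1)
          simpa using this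
        linarith
      filter_upwards [hev, h2] with w hw h3
      rw [hmem k w hw.1 hw.2.1 hw.2.2, hmem k w₀ hwΩ hw₀.1 hw₀.2]
      exact ⟨fun h => absurd h (h4 _ h3), fun h => absurd h (h4 _ h1)⟩
  have hloc' : ∀ᶠ w in 𝓝 w₀, ∀ k, (s k w ∈ VV G sg Q ρ ↔ s k w₀ ∈ VV G sg Q ρ) :=
    Filter.eventually_all.2 hloc
  set K : Finset (Fin d) := Finset.univ.filter fun k => s k w₀ ∈ VV G sg Q ρ with hK
  have hev := (hΩ.inter hA).mem_nhds ⟨hwΩ, hw₀⟩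
  have heq : dualF G sg Q ρ Z i =ᶠ[𝓝 w₀]
      fun w => ∑ k ∈ K, s k w (G.du i) * Z (s k w) / eval w G.D := by
    filter_upwards [hev, hloc'] with w hw hk
    have hset : {χ : Pt B | χ ∈ VV G sg Q ρ ∧ proj G.y χ = w} =
        (fun k => s k w) '' (K : Set (Fin d)) := by
      ext χ
      simp only [Set.mem_setOf_eq, Set.mem_image, hK, Finset.coe_filter, Finset.mem_univ,
        true_and]
      constructor
      · rintro ⟨h1, h2⟩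
        obtain ⟨k, rfl⟩ := hsurj w hw.1 χ h2
        exact ⟨k, (hk k).1 h1, rfl⟩
      · rintro ⟨k, h1, rfl⟩
        exact ⟨(hk k).2 h1, (hs k).proj w hw.1⟩
    unfold dualF
    rw [hset, finsum_mem_image ((hinj w hw.1).injOn), finsum_mem_coe_finset]
  refine DifferentiableAt.differentiableWithinAt ?_
  refine DifferentiableAt.congr_of_eventuallyEq ?_ heq
  refine DifferentiableAt.fun_sum fun k hk => ?_
  have hk' : s k w₀ ∈ VV G sg Q ρ := by simpa [hK] using hk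
  have hO : IsOpen ((Ω ∩ {w | w ∈ bal n ρ ∧ Q w ≠ 0}) ∩
      (fun w => s k w sg) ⁻¹' {c | ‖c - 1‖ < 1 / 2}) := by
    refine ((hc k).mono Set.inter_subset_left).isOpen_inter_preimage (hΩ.inter hA) ?_
    exact isOpen_lt (by fun_prop) continuous_const
  have hsec : IsSec G (VV G sg Q ρ) ((Ω ∩ {w | w ∈ bal n ρ ∧ Q w ≠ 0}) ∩
      (fun w => s k w sg) ⁻¹' {c | ‖c - 1‖ < 1 / 2}) (s k) := by
    refine ⟨hO, ?_, ?_, ?_⟩
    · rintro w ⟨⟨h1, h2, h3⟩, h4⟩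
      exact (hmem k w h1 h2 h3).2 h4
    · rintro w ⟨⟨h1, -⟩, -⟩
      exact (hs k).proj w h1
    · intro b
      exact ((hs k).holo b).mono fun w hw => hw.1.1
  have hin : w₀ ∈ (Ω ∩ {w | w ∈ bal n ρ ∧ Q w ≠ 0}) ∩
      (fun w => s k w sg) ⁻¹' {c | ‖c - 1‖ < 1 / 2} :=
    ⟨⟨hwΩ, hw₀⟩, ((hmem k w₀ hwΩ hw₀.1 hw₀.2).1 hk')⟩
  have hz : DifferentiableAt ℂ (fun w => Z (s k w)) w₀ :=
    (hZ _ _ hsec).differentiableAt (hO.mem_nhds hin)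
  have hu : DifferentiableAt ℂ (fun w => s k w (G.du i)) w₀ :=
    ((hs k).holo _).differentiableAt (hΩ.mem_nhds hwΩ)
  have he : DifferentiableAt ℂ (fun w => eval w G.D) w₀ := dual_differentiable_eval G.D w₀
  have hi : DifferentiableAt ℂ (fun w => (eval w G.D)⁻¹) w₀ :=
    (differentiableAt_inv hD).comp w₀ he
  simpa only [div_eq_mul_inv] using (hu.fun_mul hz).fun_mul hi

end

/-- the coefficients of a holomorphic function on the sheets near `x`. -/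
theorem coef_ext {n d : ℕ} {B : Type} [CommRing B] [Algebra ℂ B] {G : Germ n d B} {x : Pt B}
    {sg : B} {m : ℕ} (hm : 1 ≤ m) (hsg : IsSep G x m sg) :
    ∃ ρ₀ : ℝ, 0 < ρ₀ ∧ ∀ (ρ : ℝ) (Q : (Fin n → ℂ) → ℂ), ρ ≤ ρ₀ → IsQ G Q ρ →
      ∀ (ϖ : Pt B → ℝ≥0∞) (C : ℝ≥0),
      (∀ χ ∈ VV G sg Q ρ, ∀ i, ‖χ (G.du i)‖ₑ ^ 2 ≤ C * ‖eval (proj G.y χ) G.D‖ₑ ^ 2 * ϖ χ) →
      (∀ ρ', 0 < ρ' → ρ' < ρ → ∃ C' : ℝ≥0, ∀ Z : Pt B → ℂ, HolV G (VV G sg Q ρ) Z →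
        sumI G (VV G sg Q ρ) (fun χ => ‖Z χ‖ₑ ^ 2 * ϖ χ) ≠ ⊤ →
        ∃ ζ : Fin d → (Fin n → ℂ) → ℂ, (∀ i, DifferentiableOn ℂ (ζ i) (bal n ρ)) ∧
          (∀ i, ∀ w ∈ bal n ρ, Q w ≠ 0 → ζ i w =
            ∑ᶠ χ ∈ {χ : Pt B | χ ∈ VV G sg Q ρ ∧ proj G.y χ = w},
              χ (G.du i) * Z χ / eval w G.D) ∧
          (∀ χ ∈ VV G sg Q ρ, Z χ = ∑ i, ζ i (proj G.y χ) * χ (G.e i)) ∧
          ∀ i w, nq w ≤ ρ' ^ 2 →
            ‖ζ i w‖ₑ ^ 2 ≤ C' * sumI G (VV G sg Q ρ) (fun χ => ‖Z χ‖ₑ ^ 2 * ϖ χ)) := by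
  obtain ⟨ρ₀, _, hρ₀, hdich⟩ := hsg.dich hm
  refine ⟨ρ₀, hρ₀, ?_⟩
  intro ρ Q hρ hQ ϖ C hϖ ρ' h0 hlt
  obtain ⟨C₁, hC₁⟩ := sup_le_L2 n h0 hlt
  refine ⟨C₁ * (d * C), ?_⟩
  intro Z hZ hfin
  have hd : ∀ χ : Pt B, nq (proj G.y χ) < ρ₀ ^ 2 → ‖χ sg - 1‖ < 1 / 4 ∨ ‖χ sg‖ < 1 / 4 :=
    fun χ h => (hdich χ h).imp (fun h => h.1) fun h => h.1
  have hA : IsOpen {w | w ∈ bal n ρ ∧ Q w ≠ 0} := dual_isOpen_Q hQ.holo
  have hint : ∀ i, ∫⁻ w in {w | w ∈ bal n ρ ∧ Q w ≠ 0}, ‖dualF G sg Q ρ Z i w‖ₑ ^ 2 ≤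
      (d * C : ℝ≥0∞) * sumI G (VV G sg Q ρ) (fun χ => ‖Z χ‖ₑ ^ 2 * ϖ χ) := by
    intro i
    unfold sumI
    rw [← lintegral_const_mul' _ _ (by finiteness)]
    refine (lintegral_mono_ae ?_).trans (setLIntegral_le_lintegral _ _)
    filter_upwards [ae_restrict_mem hA.measurableSet] with w hw
    exact dualF_le G Z i (hQ.D_ne w hw.1 hw.2) fun χ hχ => hϖ χ hχ i
  have hfin' : ∀ i, ∫⁻ w in {w | w ∈ bal n ρ ∧ Q w ≠ 0}, ‖dualF G sg Q ρ Z i w‖ₑ ^ 2 ≠ ⊤ :=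
    fun i => ne_top_of_le_ne_top (ENNReal.mul_ne_top (by finiteness) hfin) (hint i)
  choose ζ hζ1 hζ2 using fun i => ext_L2 hQ.holo hQ.ne (dualF_holo hd hρ hQ hZ i) (hfin' i)
  refine ⟨ζ, hζ1, ?_, ?_, ?_⟩
  · intro i w hw hq
    rw [hζ2 i w hw hq]
    rfl
  · intro χ hχ
    have h1 : proj G.y χ ∈ bal n ρ := hχ.1
    have h2 : Q (proj G.y χ) ≠ 0 := hχ.2.1
    rw [dualF_inv G Z hχ (hQ.D_ne _ h1 h2)]
    exact Finset.sum_congr rfl fun i _ => by rw [hζ2 i _ h1 h2]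
  · intro i w hw
    refine (hC₁ (ζ i) (hζ1 i) w hw).trans ?_
    have h1 : ∫⁻ w in bal n ρ, ‖ζ i w‖ₑ ^ 2 =
        ∫⁻ w in {w | w ∈ bal n ρ ∧ Q w ≠ 0}, ‖dualF G sg Q ρ Z i w‖ₑ ^ 2 := by
      have h2 : ∫⁻ w in bal n ρ, ‖ζ i w‖ₑ ^ 2 =
          ∫⁻ w in {w | w ∈ bal n ρ ∧ Q w ≠ 0}, ‖ζ i w‖ₑ ^ 2 := by
        refine setLIntegral_congr ?_
        have hnull := null_zeros hQ.holo hQ.ne
        refine Filter.EventuallyEq.symm ?_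
        rw [ae_eq_set]
        constructor
        · have : {w | w ∈ bal n ρ ∧ Q w ≠ 0} \ bal n ρ = ∅ := by
            ext w
            simp only [Set.mem_diff, Set.mem_setOf_eq, Set.mem_empty_iff_false, iff_false]
            tauto
          rw [this, measure_empty]
        · refine measure_mono_null (fun w hw => ?_) hnull
          refine ⟨hw.1, ?_⟩
          by_contra hne
          exact hw.2 ⟨hw.1, hne⟩
      rw [h2]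
      refine setLIntegral_congr_fun hA.measurableSet fun w hw => ?_
      show ‖ζ i w‖ₑ ^ 2 = ‖dualF G sg Q ρ Z i w‖ₑ ^ 2
      rw [hζ2 i w hw.1 hw.2]
    rw [h1]
    calc (C₁ : ℝ≥0∞) * ∫⁻ w in {w | w ∈ bal n ρ ∧ Q w ≠ 0}, ‖dualF G sg Q ρ Z i w‖ₑ ^ 2
        ≤ C₁ * ((d * C : ℝ≥0∞) * sumI G (VV G sg Q ρ) (fun χ => ‖Z χ‖ₑ ^ 2 * ϖ χ)) := by
          gcongr
          exact hint i
      _ = _ := by
          push_cast
          ring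

end Pool.Agent.Odp3
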