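import Pool.Agent.Odp3.Defs
import Pool.Agent.Odp3.Alg.Cf
import Pool.Agent.Odp2.G.Approx
import Pool.Agent.Odp3.An.ApproxHol
import Pool.Agent.Odp2.Free.Refl

open scoped ContDiff Topology ENNReal NNReal WithZero
open Set MeasureTheory Filter MvPolynomial Pool.Agent.ODP

namespace Pool.Agent.Odp3

/-- generators `ψ_j / D` of the codifferent, and the bounded linear approximation of formal
solutions. -/
theorem om_data {n d : ℕ} {B : Type} [CommRing B] [IsDomain B] [IsIntegrallyClosed B]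
    [Algebra ℂ B] (G : Germ n d B) :
    ∃ (K : ℕ) (ψ : Fin K → B) (φ : Fin K → B → MvPolynomial (Fin n) ℂ),
      (∀ j b, G.tr (ψ j * b) = G.D * φ j b) ∧
      (∃ a : Fin d → Fin K → MvPolynomial (Fin n) ℂ,
        (∀ i b, G.cf b i = ∑ j, a i j * φ j b) ∧
        ∀ i, aeval G.y G.D * G.du i = ∑ j, aeval G.y (a i j) * ψ j) ∧
      ∃ (L : ℕ) (A : Fin L → Fin K → MvPolynomial (Fin n) ℂ),
        (∀ l, ∑ j, aeval G.y (A l j) * ψ j = 0) ∧
        ∀ M : ℕ, ∃ (N : ℕ) (g : Fin N → B), ∀ ρ : ℝ, 0 < ρ → ρ ≤ 1 → ∃ C : ℝ, 0 ≤ C ∧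
          ∀ (f : Fin K → (Fin n → ℂ) → ℂ) (t : ℝ), 0 ≤ t →
            (∀ j, DifferentiableOn ℂ (f j) (bal n ρ)) →
            (∀ j w, nq w < ρ ^ 2 → ‖f j w‖ ≤ t) →
            (∀ l w, nq w < ρ ^ 2 → ∑ j, eval w (A l j) * f j w = 0) →
            ∃ c : Fin N → ℂ, (∀ i, ‖c i‖ ≤ C * t) ∧ ∀ j w, nq w < ρ ^ 2 →
              ‖f j w - eval w (φ j (∑ i, algebraMap ℂ B (c i) * g i))‖ ≤
                C * t * √(nq w) ^ M := by
  classical
  let _ : Algebra (MvPolynomial (Fin n) ℂ) B :=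
    (aeval G.y : MvPolynomial (Fin n) ℂ →ₐ[ℂ] B).toRingHom.toAlgebra
  have hfin : Module.Finite (MvPolynomial (Fin n) ℂ) B := G.fin
  have hsmul : ∀ (p : MvPolynomial (Fin n) ℂ) (b : B), p • b = aeval G.y p * b :=
    fun p b => Algebra.smul_def p b
  have hfaith : FaithfulSMul (MvPolynomial (Fin n) ℂ) B :=
    (faithfulSMul_iff_algebraMap_injective _ _).2 G.inj
  have hdual : Module.Finite (MvPolynomial (Fin n) ℂ) (B →ₗ[MvPolynomial (Fin n) ℂ]
      MvPolynomial (Fin n) ℂ) := by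
    have := Odp2.refl_noeth (P := MvPolynomial (Fin n) ℂ) (B := B)
    exact inferInstance
  obtain ⟨K, φ, hφ⟩ := Odp2.approx_exists_gen (MvPolynomial (Fin n) ℂ)
    (B →ₗ[MvPolynomial (Fin n) ℂ] MvPolynomial (Fin n) ℂ)
  obtain ⟨s, e, he⟩ := Odp2.approx_exists_gen (MvPolynomial (Fin n) ℂ) B
  obtain ⟨L, A, hA1, hA2⟩ := Odp2.approx_exists_syz (P := MvPolynomial (Fin n) ℂ) φ
  -- the linear forms `cf`
  let δ : Fin d → (B →ₗ[MvPolynomial (Fin n) ℂ] MvPolynomial (Fin n) ℂ) := fun i =>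
    { toFun := fun b => G.cf b i
      map_add' := fun a b => congrFun (G.cf_add a b) i
      map_smul' := fun p b => by
        rw [hsmul, G.cf_aeval_mul, RingHom.id_apply, smul_eq_mul] }
  have hδ : ∀ i b, δ i b = G.cf b i := fun _ _ => rfl
  have hspec : ∀ b, G.D • b = ∑ i, G.cf b i • G.e i := by
    intro b
    rw [hsmul, G.cf_spec b]
    exact Finset.sum_congr rfl fun i _ => (hsmul _ _).symm
  have hφD : ∀ (f : B →ₗ[MvPolynomial (Fin n) ℂ] MvPolynomial (Fin n) ℂ) b,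
      G.D * f b = ∑ i, f (G.e i) * G.cf b i := by
    intro f b
    have h1 := congrArg f (hspec b)
    rw [map_smul, map_sum, smul_eq_mul] at h1
    rw [h1]
    refine Finset.sum_congr rfl fun i _ => ?_
    rw [map_smul, smul_eq_mul, mul_comm]
  let ψ : Fin K → B := fun j => ∑ i, aeval G.y (φ j (G.e i)) * G.du i
  have htr : ∀ j b, G.tr (ψ j * b) = G.D * φ j b := by
    intro j b
    rw [hφD, Finset.sum_mul, G.tr_sum]
    refine Finset.sum_congr rfl fun i _ => ?_
    rw [mul_assoc, G.tr_mul]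
    rfl
  have hcomb : ∀ f : B →ₗ[MvPolynomial (Fin n) ℂ] MvPolynomial (Fin n) ℂ,
      ∃ a : Fin K → MvPolynomial (Fin n) ℂ, f = ∑ j, a j • φ j := by
    intro f
    have h1 : f ∈ Submodule.span (MvPolynomial (Fin n) ℂ) (Set.range φ) := by
      rw [hφ]; trivial
    rw [← Fintype.range_linearCombination (MvPolynomial (Fin n) ℂ) φ] at h1
    obtain ⟨a, ha⟩ := h1
    rw [Fintype.linearCombination_apply] at ha
    exact ⟨a, ha.symm⟩
  choose a ha using fun i => hcomb (δ i)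
  have ha' : ∀ i b, G.cf b i = ∑ j, a i j * φ j b := by
    intro i b
    rw [← hδ, ha i, LinearMap.sum_apply]
    exact Finset.sum_congr rfl fun j _ => by rw [LinearMap.smul_apply, smul_eq_mul]
  -- sums of the `ψ_j`
  have hsumψ : ∀ v : Fin K → MvPolynomial (Fin n) ℂ, ∑ j, aeval G.y (v j) * ψ j =
      ∑ i, aeval G.y (∑ j, v j * φ j (G.e i)) * G.du i := by
    intro v
    have h1 : ∀ j, aeval G.y (v j) * ψ j =
        ∑ i, aeval G.y (v j * φ j (G.e i)) * G.du i := by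
      intro j
      rw [Finset.mul_sum]
      refine Finset.sum_congr rfl fun i _ => ?_
      rw [map_mul, mul_assoc]
    rw [Finset.sum_congr rfl fun j _ => h1 j, Finset.sum_comm]
    refine Finset.sum_congr rfl fun i _ => ?_
    rw [map_sum, Finset.sum_mul]
  refine ⟨K, ψ, fun j b => φ j b, htr, ⟨a, ha', fun i => ?_⟩, L, A, fun l => ?_, ?_⟩
  · rw [hsumψ]
    have h1 : ∀ i', ∑ j, a i j * φ j (G.e i') = if i = i' then G.D else 0 := by
      intro i'
      rw [← ha', G.cf_e]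
    rw [Finset.sum_eq_single i]
    · rw [h1, if_pos rfl]
    · intro i' _ hne
      rw [h1, if_neg (Ne.symm hne), map_zero, zero_mul]
    · intro h
      exact absurd (Finset.mem_univ i) h
  · rw [hsumψ]
    refine Finset.sum_eq_zero fun i _ => ?_
    have h1 := congrArg (fun f : B →ₗ[MvPolynomial (Fin n) ℂ] MvPolynomial (Fin n) ℂ =>
      f (G.e i)) (hA1 l)
    simp only [LinearMap.sum_apply, LinearMap.smul_apply, smul_eq_mul,
      LinearMap.zero_apply] at h1
    rw [h1, map_zero, zero_mul]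
  · intro M
    have htower : IsScalarTower ℂ (MvPolynomial (Fin n) ℂ) B := by
      refine IsScalarTower.of_algebraMap_eq fun z => ?_
      change algebraMap ℂ B z = aeval G.y (algebraMap ℂ (MvPolynomial (Fin n) ℂ) z)
      rw [AlgHom.commutes]
    exact approx_hol_fix φ hφ e he A hA2 M

end Pool.Agent.Odp3
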