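import Pool.Agent.Odp3.Defs
import Pool.Agent.Odp3.Pt.Sect
import Pool.Agent.Odp2.Horm.Dual

open scoped ContDiff Topology ENNReal NNReal WithZero
open Set MeasureTheory Filter MvPolynomial Pool.Agent.ODP

namespace Pool.Agent.Odp3

section

variable {n d : ℕ} {B : Type} [CommRing B] [Algebra ℂ B]

/-- the fibres over the points outside the discriminant are finite -/
lemma om_finite (G : Germ n d B) {w : Fin n → ℂ} (h : eval w G.D ≠ 0) :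
    {χ : Pt B | proj G.y χ = w}.Finite := by
  obtain ⟨Ω, -, hw, s, -, -, hs⟩ := G.exists_sections h
  refine (Set.finite_range fun i => s i w).subset ?_
  intro χ hχ
  obtain ⟨i, hi⟩ := hs w hw χ hχ
  exact ⟨i, hi⟩

/-- the fibre of `VV` -/
def omFib (G : Germ n d B) (sg : B) (Q : (Fin n → ℂ) → ℂ) (ρ : ℝ) (w : Fin n → ℂ) :
    Set (Pt B) := {χ : Pt B | χ ∈ VV G sg Q ρ ∧ proj G.y χ = w}

lemma omFib_finite (G : Germ n d B) {sg : B} {Q : (Fin n → ℂ) → ℂ} {ρ : ℝ} {w : Fin n → ℂ}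
    (h : eval w G.D ≠ 0) : (omFib G sg Q ρ w).Finite :=
  (om_finite G h).subset fun _ hχ => hχ.2

lemma omFib_ncard_le {G : Germ n d B} {sg : B} {Q : (Fin n → ℂ) → ℂ} {ρ : ℝ} {w : Fin n → ℂ}
    (h : eval w G.D ≠ 0) : (omFib_finite G (sg := sg) (Q := Q) (ρ := ρ) h).toFinset.card ≤ d := by
  rw [← Set.ncard_eq_toFinset_card _ (omFib_finite G h)]
  exact (Set.ncard_le_ncard (fun _ hχ => hχ.2) (om_finite G h)).trans (G.card w h).le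

/-- the pairing of `u / D` and `Z` over the sheets near `x` -/
noncomputable def omF (G : Germ n d B) (sg : B) (Q : (Fin n → ℂ) → ℂ) (ρ : ℝ) (Z : Pt B → ℂ)
    (u : B) (w : Fin n → ℂ) : ℂ :=
  ∑ᶠ χ ∈ {χ : Pt B | χ ∈ VV G sg Q ρ ∧ proj G.y χ = w}, χ u * Z χ / eval w G.D

lemma omF_eq (G : Germ n d B) {sg : B} {Q : (Fin n → ℂ) → ℂ} {ρ : ℝ} (Z : Pt B → ℂ)
    (u : B) {w : Fin n → ℂ} (h : eval w G.D ≠ 0) : omF G sg Q ρ Z u w =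
      ∑ χ ∈ (omFib_finite G (sg := sg) (Q := Q) (ρ := ρ) h).toFinset,
        χ u * Z χ / eval w G.D := by
  unfold omF
  exact finsum_mem_eq_finite_toFinset_sum _ (omFib_finite G h)

/-- the estimate -/
lemma omF_le (G : Germ n d B) {sg : B} {Q : (Fin n → ℂ) → ℂ} {ρ : ℝ} (Z : Pt B → ℂ)
    (u : B) {w : Fin n → ℂ} (h : eval w G.D ≠ 0) {ϖ : Pt B → ℝ≥0∞} {C : ℝ≥0}
    (hϖ : ∀ χ ∈ VV G sg Q ρ, ‖χ u‖ₑ ^ 2 ≤ C * ‖eval (proj G.y χ) G.D‖ₑ ^ 2 * ϖ χ) :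
    ‖omF G sg Q ρ Z u w‖ₑ ^ 2 ≤ (d * C : ℝ≥0∞) *
      ∑' χ : {χ : Pt B // χ ∈ VV G sg Q ρ ∧ proj G.y χ = w}, ‖Z χ‖ₑ ^ 2 * ϖ χ := by
  rw [omF_eq G Z u h]
  refine (Odp2.dual_enorm_sq_sum_le _ _).trans ?_
  have hD : ‖eval w G.D‖ₑ ^ 2 ≠ 0 := by simpa using h
  have hD' : ‖eval w G.D‖ₑ ^ 2 ≠ ⊤ := by finiteness
  have h1 : ∀ χ ∈ (omFib_finite G (sg := sg) (Q := Q) (ρ := ρ) h).toFinset,
      ‖χ u * Z χ / eval w G.D‖ₑ ^ 2 ≤ C * (‖Z χ‖ₑ ^ 2 * ϖ χ) := by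
    intro χ hχ
    rw [Set.Finite.mem_toFinset] at hχ
    have h2 := hϖ χ hχ.1
    rw [hχ.2] at h2
    rw [div_eq_mul_inv, enorm_mul, enorm_mul, enorm_inv h, mul_pow, mul_pow, ← ENNReal.inv_pow]
    calc ‖χ u‖ₑ ^ 2 * ‖Z χ‖ₑ ^ 2 * (‖eval w G.D‖ₑ ^ 2)⁻¹
        ≤ (C * ‖eval w G.D‖ₑ ^ 2 * ϖ χ) * ‖Z χ‖ₑ ^ 2 * (‖eval w G.D‖ₑ ^ 2)⁻¹ := by gcongr
      _ = C * (‖Z χ‖ₑ ^ 2 * ϖ χ) * (‖eval w G.D‖ₑ ^ 2 * (‖eval w G.D‖ₑ ^ 2)⁻¹) := by ring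
      _ = C * (‖Z χ‖ₑ ^ 2 * ϖ χ) := by rw [ENNReal.mul_inv_cancel hD hD', mul_one]
  have h3 : ∑' χ : {χ : Pt B // χ ∈ VV G sg Q ρ ∧ proj G.y χ = w}, ‖Z χ‖ₑ ^ 2 * ϖ χ =
      ∑ χ ∈ (omFib_finite G (sg := sg) (Q := Q) (ρ := ρ) h).toFinset, ‖Z χ‖ₑ ^ 2 * ϖ χ := by
    have : Fintype {χ : Pt B // χ ∈ VV G sg Q ρ ∧ proj G.y χ = w} :=
      (omFib_finite G (sg := sg) (Q := Q) (ρ := ρ) h).fintype
    rw [tsum_fintype]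
    refine (Finset.sum_subtype _ (fun χ => ?_) fun χ => ‖Z χ‖ₑ ^ 2 * ϖ χ).symm
    rw [Set.Finite.mem_toFinset]
    rfl
  rw [h3]
  calc _ ≤ ((omFib_finite G (sg := sg) (Q := Q) (ρ := ρ) h).toFinset.card : ℝ≥0∞) *
        ∑ χ ∈ (omFib_finite G (sg := sg) (Q := Q) (ρ := ρ) h).toFinset,
          C * (‖Z χ‖ₑ ^ 2 * ϖ χ) := by
        gcongr with χ hχ
        exact h1 χ hχ
    _ ≤ (d : ℝ≥0∞) * ∑ χ ∈ (omFib_finite G (sg := sg) (Q := Q) (ρ := ρ) h).toFinset,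
          C * (‖Z χ‖ₑ ^ 2 * ϖ χ) := by
        gcongr
        exact omFib_ncard_le h
    _ = _ := by rw [← Finset.mul_sum, mul_assoc]

/-- the pairing is holomorphic outside the zeros of `Q` -/
lemma omF_holo {G : Germ n d B} {sg : B} {ρ₀ : ℝ}
    (hd : ∀ χ : Pt B, nq (proj G.y χ) < ρ₀ ^ 2 → ‖χ sg - 1‖ < 1 / 4 ∨ ‖χ sg‖ < 1 / 4)
    {Q : (Fin n → ℂ) → ℂ} {ρ : ℝ} (hρ : ρ ≤ ρ₀) (hQ : IsQ G Q ρ) {Z : Pt B → ℂ}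
    (hZ : HolV G (VV G sg Q ρ) Z) (u : B) :
    DifferentiableOn ℂ (omF G sg Q ρ Z u) {w | w ∈ bal n ρ ∧ Q w ≠ 0} := by
  classical
  intro w₀ hw₀
  have hA : IsOpen {w | w ∈ bal n ρ ∧ Q w ≠ 0} := Odp2.dual_isOpen_Q hQ.holo
  have hD : eval w₀ G.D ≠ 0 := hQ.D_ne w₀ hw₀.1 hw₀.2
  obtain ⟨Ω, hΩ, hwΩ, s, hs, hinj, hsurj⟩ := G.exists_sections hD
  have hc : ∀ k, ContinuousOn (fun w => s k w sg) Ω := fun k => ((hs k).holo sg).continuousOn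
  have hca : ∀ k, ContinuousAt (fun w => s k w sg) w₀ := fun k =>
    (hc k).continuousAt (hΩ.mem_nhds hwΩ)
  have hmem : ∀ k, ∀ w ∈ Ω, w ∈ bal n ρ → Q w ≠ 0 → (s k w ∈ VV G sg Q ρ ↔
      ‖s k w sg - 1‖ < 1 / 2) := by
    intro k w hw hb hq
    have hp := (hs k).proj w hw
    simp only [VV, Set.mem_setOf_eq, hp]
    exact ⟨fun h => h.2.2, fun h => ⟨hb, hq, h⟩⟩
  have hloc : ∀ k, ∀ᶠ w in 𝓝 w₀, (s k w ∈ VV G sg Q ρ ↔ s k w₀ ∈ VV G sg Q ρ) := by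
    intro k
    have hev := (hΩ.inter hA).mem_nhds ⟨hwΩ, hw₀⟩
    have hn : nq (proj G.y (s k w₀)) < ρ₀ ^ 2 := by
      rw [(hs k).proj w₀ hwΩ]
      have := hQ.pos
      exact lt_of_lt_of_le hw₀.1 (by gcongr)
    rcases hd _ hn with h1 | h1
    · have h2 : ∀ᶠ w in 𝓝 w₀, ‖s k w sg - 1‖ < 1 / 2 :=
        ((hca k).sub continuousAt_const).norm.eventually_lt continuousAt_const
          (lt_trans h1 (by norm_num))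
      filter_upwards [hev, h2] with w hw h3
      rw [hmem k w hw.1 hw.2.1 hw.2.2, hmem k w₀ hwΩ hw₀.1 hw₀.2]
      exact ⟨fun _ => lt_trans h1 (by norm_num), fun _ => h3⟩
    · have h2 : ∀ᶠ w in 𝓝 w₀, ‖s k w sg‖ < 1 / 4 :=
        (hca k).norm.eventually_lt continuousAt_const h1
      have h4 : ∀ c : ℂ, ‖c‖ < 1 / 4 → ¬ ‖c - 1‖ < 1 / 2 := by
        intro c hc1 hc2
        have h5 : (1 : ℝ) ≤ ‖c‖ + ‖c - 1‖ := by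
          have := norm_sub_le c (c - 1)
          simpa using this
        linarith
      filter_upwards [hev, h2] with w hw h3
      rw [hmem k w hw.1 hw.2.1 hw.2.2, hmem k w₀ hwΩ hw₀.1 hw₀.2]
      exact ⟨fun h => absurd h (h4 _ h3), fun h => absurd h (h4 _ h1)⟩
  have hloc' : ∀ᶠ w in 𝓝 w₀, ∀ k, (s k w ∈ VV G sg Q ρ ↔ s k w₀ ∈ VV G sg Q ρ) :=
    Filter.eventually_all.2 hloc
  set K : Finset (Fin d) := Finset.univ.filter fun k => s k w₀ ∈ VV G sg Q ρ with hK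
  have hev := (hΩ.inter hA).mem_nhds ⟨hwΩ, hw₀⟩
  have heq : omF G sg Q ρ Z u =ᶠ[𝓝 w₀]
      fun w => ∑ k ∈ K, s k w u * Z (s k w) / eval w G.D := by
    filter_upwards [hev, hloc'] with w hw hk
    have hset : {χ : Pt B | χ ∈ VV G sg Q ρ ∧ proj G.y χ = w} =
        (fun k => s k w) '' (K : Set (Fin d)) := by
      ext χ
      simp only [Set.mem_setOf_eq, Set.mem_image, hK, Finset.coe_filter, Finset.mem_univ,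
        true_and]
      constructor
      · rintro ⟨h1, h2⟩
        obtain ⟨k, rfl⟩ := hsurj w hw.1 χ h2
        exact ⟨k, (hk k).1 h1, rfl⟩
      · rintro ⟨k, h1, rfl⟩
        exact ⟨(hk k).2 h1, (hs k).proj w hw.1⟩
    unfold omF
    rw [hset, finsum_mem_image ((hinj w hw.1).injOn), finsum_mem_coe_finset]
  refine DifferentiableAt.differentiableWithinAt ?_
  refine DifferentiableAt.congr_of_eventuallyEq ?_ heq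
  refine DifferentiableAt.fun_sum fun k hk => ?_
  have hk' : s k w₀ ∈ VV G sg Q ρ := by simpa [hK] using hk
  have hO : IsOpen ((Ω ∩ {w | w ∈ bal n ρ ∧ Q w ≠ 0}) ∩
      (fun w => s k w sg) ⁻¹' {c | ‖c - 1‖ < 1 / 2}) := by
    refine ((hc k).mono Set.inter_subset_left).isOpen_inter_preimage (hΩ.inter hA) ?_
    exact isOpen_lt (by fun_prop) continuous_const
  have hsec : IsSec G (VV G sg Q ρ) ((Ω ∩ {w | w ∈ bal n ρ ∧ Q w ≠ 0}) ∩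
      (fun w => s k w sg) ⁻¹' {c | ‖c - 1‖ < 1 / 2}) (s k) := by
    refine ⟨hO, ?_, ?_, ?_⟩
    · rintro w ⟨⟨h1, h2, h3⟩, h4⟩
      exact (hmem k w h1 h2 h3).2 h4
    · rintro w ⟨⟨h1, -⟩, -⟩
      exact (hs k).proj w h1
    · intro b
      exact ((hs k).holo b).mono fun w hw => hw.1.1
  have hin : w₀ ∈ (Ω ∩ {w | w ∈ bal n ρ ∧ Q w ≠ 0}) ∩
      (fun w => s k w sg) ⁻¹' {c | ‖c - 1‖ < 1 / 2} :=
    ⟨⟨hwΩ, hw₀⟩, ((hmem k w₀ hwΩ hw₀.1 hw₀.2).1 hk')⟩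
  have hz : DifferentiableAt ℂ (fun w => Z (s k w)) w₀ :=
    (hZ _ _ hsec).differentiableAt (hO.mem_nhds hin)
  have hu : DifferentiableAt ℂ (fun w => s k w u) w₀ :=
    ((hs k).holo _).differentiableAt (hΩ.mem_nhds hwΩ)
  have he : DifferentiableAt ℂ (fun w => eval w G.D) w₀ := Odp2.dual_differentiable_eval G.D w₀
  have hi : DifferentiableAt ℂ (fun w => (eval w G.D)⁻¹) w₀ :=
    (differentiableAt_inv hD).comp w₀ he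
  simpa only [div_eq_mul_inv] using (hu.fun_mul hz).fun_mul hi

/-- the extension of the pairing and its bound -/
theorem om_ext {G : Germ n d B} {sg : B} {ρ₀ : ℝ}
    (hd : ∀ χ : Pt B, nq (proj G.y χ) < ρ₀ ^ 2 → ‖χ sg - 1‖ < 1 / 4 ∨ ‖χ sg‖ < 1 / 4)
    {Q : (Fin n → ℂ) → ℂ} {ρ : ℝ} (hρ : ρ ≤ ρ₀) (hQ : IsQ G Q ρ) {u : B} {ϖ : Pt B → ℝ≥0∞}
    {C : ℝ≥0} (hϖ : ∀ χ ∈ VV G sg Q ρ, ‖χ u‖ₑ ^ 2 ≤ C * ‖eval (proj G.y χ) G.D‖ₑ ^ 2 * ϖ χ)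
    {ρ' : ℝ} {C₁ : ℝ≥0} (hC₁ : ∀ g : (Fin n → ℂ) → ℂ, DifferentiableOn ℂ g (bal n ρ) →
      ∀ w, nq w ≤ ρ' ^ 2 → ‖g w‖ₑ ^ 2 ≤ C₁ * ∫⁻ w in bal n ρ, ‖g w‖ₑ ^ 2)
    {Z : Pt B → ℂ} (hZ : HolV G (VV G sg Q ρ) Z)
    (hfin : sumI G (VV G sg Q ρ) (fun χ => ‖Z χ‖ₑ ^ 2 * ϖ χ) ≠ ⊤) :
    ∃ ζ : (Fin n → ℂ) → ℂ, DifferentiableOn ℂ ζ (bal n ρ) ∧
      (∀ w ∈ bal n ρ, Q w ≠ 0 → ζ w = omF G sg Q ρ Z u w) ∧
      ∀ w, nq w ≤ ρ' ^ 2 → ‖ζ w‖ₑ ^ 2 ≤ ((C₁ * (d * C) : ℝ≥0) : ℝ≥0∞) *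
        sumI G (VV G sg Q ρ) (fun χ => ‖Z χ‖ₑ ^ 2 * ϖ χ) := by
  have hA : IsOpen {w | w ∈ bal n ρ ∧ Q w ≠ 0} := Odp2.dual_isOpen_Q hQ.holo
  have hint : ∫⁻ w in {w | w ∈ bal n ρ ∧ Q w ≠ 0}, ‖omF G sg Q ρ Z u w‖ₑ ^ 2 ≤
      (d * C : ℝ≥0∞) * sumI G (VV G sg Q ρ) (fun χ => ‖Z χ‖ₑ ^ 2 * ϖ χ) := by
    unfold sumI
    rw [← lintegral_const_mul' _ _ (by finiteness)]
    refine (lintegral_mono_ae ?_).trans (setLIntegral_le_lintegral _ _)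
    filter_upwards [ae_restrict_mem hA.measurableSet] with w hw
    exact omF_le G Z u (hQ.D_ne w hw.1 hw.2) fun χ hχ => hϖ χ hχ
  have hfin' : ∫⁻ w in {w | w ∈ bal n ρ ∧ Q w ≠ 0}, ‖omF G sg Q ρ Z u w‖ₑ ^ 2 ≠ ⊤ :=
    ne_top_of_le_ne_top (ENNReal.mul_ne_top (by finiteness) hfin) hint
  obtain ⟨ζ, hζ1, hζ2⟩ := Odp2.ext_L2 hQ.holo hQ.ne (omF_holo hd hρ hQ hZ u) hfin'
  refine ⟨ζ, hζ1, hζ2, ?_⟩
  intro w hw
  refine (hC₁ ζ hζ1 w hw).trans ?_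
  have h1 : ∫⁻ w in bal n ρ, ‖ζ w‖ₑ ^ 2 =
      ∫⁻ w in {w | w ∈ bal n ρ ∧ Q w ≠ 0}, ‖omF G sg Q ρ Z u w‖ₑ ^ 2 := by
    have h2 : ∫⁻ w in bal n ρ, ‖ζ w‖ₑ ^ 2 =
        ∫⁻ w in {w | w ∈ bal n ρ ∧ Q w ≠ 0}, ‖ζ w‖ₑ ^ 2 := by
      refine setLIntegral_congr ?_
      have hnull := Odp2.null_zeros hQ.holo hQ.ne
      refine Filter.EventuallyEq.symm ?_
      rw [ae_eq_set]
      constructor
      · have : {w | w ∈ bal n ρ ∧ Q w ≠ 0} \ bal n ρ = ∅ := by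
          ext w
          simp only [Set.mem_diff, Set.mem_setOf_eq, Set.mem_empty_iff_false, iff_false]
          tauto
        rw [this, measure_empty]
      · refine measure_mono_null (fun w hw => ?_) hnull
        refine ⟨hw.1, ?_⟩
        by_contra hne
        exact hw.2 ⟨hw.1, hne⟩
    rw [h2]
    refine setLIntegral_congr_fun hA.measurableSet fun w hw => ?_
    show ‖ζ w‖ₑ ^ 2 = ‖omF G sg Q ρ Z u w‖ₑ ^ 2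
    rw [hζ2 w hw.1 hw.2]
  rw [h1]
  calc (C₁ : ℝ≥0∞) * ∫⁻ w in {w | w ∈ bal n ρ ∧ Q w ≠ 0}, ‖omF G sg Q ρ Z u w‖ₑ ^ 2
      ≤ C₁ * ((d * C : ℝ≥0∞) * sumI G (VV G sg Q ρ) (fun χ => ‖Z χ‖ₑ ^ 2 * ϖ χ)) := by
        gcongr
    _ = _ := by
        push_cast
        ring

end

end Pool.Agent.Odp3
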