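import Pool.Agent.Odp3.Defs
import Pool.Agent.Odp3.Pt.Bdd
import Pool.Agent.Odp3.Horm.ApproxAux
import Pool.Agent.Odp3.Horm.ApproxAlg

open scoped ContDiff Topology ENNReal NNReal WithZero
open Set MeasureTheory Filter MvPolynomial Pool.Agent.ODP

namespace Pool.Agent.Odp3

/-- a sum of holomorphic functions with polynomial coefficients vanishes if it vanishes where
`Q ≠ 0`. -/
theorem approx_zero {n K : ℕ} {ρ : ℝ} {Q : (Fin n → ℂ) → ℂ} (hQ : DifferentiableOn ℂ Q (bal n ρ))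
    (hne : ∃ w ∈ bal n ρ, Q w ≠ 0) {f : Fin K → (Fin n → ℂ) → ℂ}
    (hf : ∀ j, DifferentiableOn ℂ (f j) (bal n ρ)) (A : Fin K → MvPolynomial (Fin n) ℂ)
    (h : ∀ w ∈ bal n ρ, Q w ≠ 0 → ∑ j, eval w (A j) * f j w = 0) {w : Fin n → ℂ}
    (hw : w ∈ bal n ρ) : ∑ j, eval w (A j) * f j w = 0 := by
  have hdense := Odp2.ext_dense hQ hne hw
  have hc : ContinuousAt (fun w => ∑ j, eval w (A j) * f j w) w := by
    refine tendsto_finset_sum _ fun j _ => ?_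
    exact ((MvPolynomial.continuous_eval (A j)).tendsto w).mul
      ((hf j).continuousOn.continuousAt ((Odp2.ext_bal_open n ρ).mem_nhds hw))
  have h1 : Tendsto (fun w => ∑ j, eval w (A j) * f j w)
      (𝓝[{w | w ∈ bal n ρ ∧ Q w ≠ 0}] w) (𝓝 (∑ j, eval w (A j) * f j w)) :=
    hc.tendsto.mono_left nhdsWithin_le_nhds
  have h2 : Tendsto (fun w => ∑ j, eval w (A j) * f j w)
      (𝓝[{w | w ∈ bal n ρ ∧ Q w ≠ 0}] w) (𝓝 0) := by
    refine Tendsto.congr' ?_ tendsto_const_nhds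
    filter_upwards [self_mem_nhdsWithin] with v hv
    exact (h v hv.1 hv.2).symm
  exact tendsto_nhds_unique h1 h2

/-- the inversion formula -/
theorem approx_inv {n d K : ℕ} {B : Type} [CommRing B] [Algebra ℂ B] (G : Germ n d B) {sg : B}
    {Q : (Fin n → ℂ) → ℂ} {ρ : ℝ} {ψ : Fin K → B} {φ : Fin K → B → MvPolynomial (Fin n) ℂ}
    {a : Fin d → Fin K → MvPolynomial (Fin n) ℂ}
    (ha₁ : ∀ i b, G.cf b i = ∑ j, a i j * φ j b)
    (ha₂ : ∀ i, aeval G.y G.D * G.du i = ∑ j, aeval G.y (a i j) * ψ j) (Z : Pt B → ℂ) (b : B)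
    {χ : Pt B} (hχ : χ ∈ VV G sg Q ρ) (hD : eval (proj G.y χ) G.D ≠ 0) :
    eval (proj G.y χ) G.D * (Z χ - χ b) =
      ∑ i, χ (G.e i) * ∑ j, eval (proj G.y χ) (a i j) *
        (omF G sg Q ρ Z (ψ j) (proj G.y χ) - eval (proj G.y χ) (φ j b)) := by
  classical
  set w := proj G.y χ with hw
  have hmem : χ ∈ (omFib_finite G (sg := sg) (Q := Q) (ρ := ρ) hD).toFinset := by
    rw [Set.Finite.mem_toFinset]
    exact ⟨hχ, rfl⟩
  -- the first half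
  have h1 : eval w G.D * Z χ = ∑ i, χ (G.e i) *
      ∑ χ' ∈ (omFib_finite G (sg := sg) (Q := Q) (ρ := ρ) hD).toFinset, χ' (G.du i) * Z χ' := by
    simp only [Finset.mul_sum]
    rw [Finset.sum_comm]
    have h2 : ∀ χ' ∈ (omFib_finite G (sg := sg) (Q := Q) (ρ := ρ) hD).toFinset,
        ∑ i, χ (G.e i) * (χ' (G.du i) * Z χ') = Z χ' * ∑ i, χ' (G.du i) * χ (G.e i) := by
      intro χ' _
      rw [Finset.mul_sum]
      exact Finset.sum_congr rfl fun i _ => by ring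
    rw [Finset.sum_congr rfl h2, Finset.sum_eq_single_of_mem χ hmem]
    · rw [(G.du_spec w hD χ χ rfl rfl).1 rfl, mul_comm]
    · intro χ' hχ' hne
      rw [Set.Finite.mem_toFinset] at hχ'
      rw [(G.du_spec w hD χ' χ hχ'.2 rfl).2 hne, mul_zero]
  have h3 : ∀ i, ∑ χ' ∈ (omFib_finite G (sg := sg) (Q := Q) (ρ := ρ) hD).toFinset,
      χ' (G.du i) * Z χ' = ∑ j, eval w (a i j) * omF G sg Q ρ Z (ψ j) w := by
    intro i
    have h4 : ∀ j, eval w (a i j) * omF G sg Q ρ Z (ψ j) w =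
        ∑ χ' ∈ (omFib_finite G (sg := sg) (Q := Q) (ρ := ρ) hD).toFinset,
          (eval w (a i j) * χ' (ψ j)) * (Z χ' / eval w G.D) := by
      intro j
      rw [omF_eq G Z (ψ j) hD, Finset.mul_sum]
      exact Finset.sum_congr rfl fun χ' _ => by ring
    rw [Finset.sum_congr rfl fun j _ => h4 j, Finset.sum_comm]
    refine Finset.sum_congr rfl fun χ' hχ' => ?_
    rw [Set.Finite.mem_toFinset] at hχ'
    rw [← Finset.sum_mul]
    have h5 : ∑ j, eval w (a i j) * χ' (ψ j) = eval w G.D * χ' (G.du i) := by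
      have h6 := congrArg χ' (ha₂ i)
      rw [map_mul, bdd_aeval, hχ'.2, map_sum] at h6
      rw [h6]
      refine Finset.sum_congr rfl fun j _ => ?_
      rw [map_mul, bdd_aeval, hχ'.2]
    rw [h5]
    field_simp
  rw [mul_sub, h1, G.apply_cf, ← Finset.sum_sub_distrib]
  refine Finset.sum_congr rfl fun i _ => ?_
  rw [h3, ha₁, map_sum, mul_comm (∑ j, eval w (a i j * φ j b)) (χ (G.e i)), ← mul_sub,
    ← Finset.sum_sub_distrib]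
  refine congrArg _ (Finset.sum_congr rfl fun j _ => ?_)
  rw [map_mul, mul_sub]

/-- (B') A square integrable holomorphic function `Z` on the sheets near `x` is, up to
`O(|y|^M / |D|)`, a combination of finitely many fixed elements of `B`; the coefficients are
bounded by the norm of `Z`. -/
theorem approx {n d : ℕ} {B : Type} [CommRing B] [IsDomain B] [IsIntegrallyClosed B] [Algebra ℂ B]
    {G : Germ n d B} {x : Pt B} {sg : B} {m : ℕ} (hm : 1 ≤ m) (hsg : IsSep G x m sg)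
    {ϖ : Pt B → ℝ≥0∞} {ρ₁ : ℝ} (hρ₁ : 0 < ρ₁)
    (hom : ∀ u, G.IsOm u → ∃ C : ℝ≥0, ∀ χ ∈ UU G sg ρ₁, eval (proj G.y χ) G.D ≠ 0 →
      ‖χ u‖ₑ ^ 2 ≤ C * ‖eval (proj G.y χ) G.D‖ₑ ^ 2 * ϖ χ) (M : ℕ) :
    ∃ (k : ℕ) (g : Fin k → B) (ρ₀ : ℝ), 0 < ρ₀ ∧
      ∀ (ρ : ℝ) (Q : (Fin n → ℂ) → ℂ), ρ ≤ ρ₀ → IsQ G Q ρ → ∀ ρ', 0 < ρ' → ρ' < ρ →
      ∃ C : ℝ≥0, ∀ Z, HolV G (VV G sg Q ρ) Z →
        sumI G (VV G sg Q ρ) (fun χ => ‖Z χ‖ₑ ^ 2 * ϖ χ) ≠ ⊤ →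
        ∃ c : Fin k → ℂ,
          (∀ i, ‖c i‖ₑ ^ 2 ≤ C * sumI G (VV G sg Q ρ) (fun χ => ‖Z χ‖ₑ ^ 2 * ϖ χ)) ∧
          ∀ χ ∈ VV G sg Q ρ, nq (proj G.y χ) ≤ ρ' ^ 2 →
            ‖eval (proj G.y χ) G.D‖ₑ ^ 2 * ‖Z χ - χ (∑ i, algebraMap ℂ B (c i) * g i)‖ₑ ^ 2 ≤
              C * ENNReal.ofReal (nq (proj G.y χ)) ^ M *
                sumI G (VV G sg Q ρ) (fun χ => ‖Z χ‖ₑ ^ 2 * ϖ χ) := by
  classical
  obtain ⟨K, ψ, φ, hφ, ⟨a, ha₁, ha₂⟩, L, A, hA, hfix⟩ := om_data G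
  obtain ⟨N, g, hg⟩ := hfix M
  obtain ⟨ρ₀, _, hρ₀, hdich⟩ := hsg.dich hm
  have hd : ∀ χ : Pt B, nq (proj G.y χ) < ρ₀ ^ 2 → ‖χ sg - 1‖ < 1 / 4 ∨ ‖χ sg‖ < 1 / 4 :=
    fun χ h => (hdich χ h).imp (fun h => h.1) fun h => h.1
  have hIs : ∀ j, G.IsOm (ψ j) := fun j b => ⟨φ j b, hφ j b⟩
  choose Cψ hCψ using fun j => hom (ψ j) (hIs j)
  choose Ce hCe using fun i => G.bdd (G.e i) 1
  choose Ca hCa using fun i j => bdd_eval (a i j) 1
  refine ⟨N, g, min (min ρ₀ ρ₁) 1, by positivity, ?_⟩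
  intro ρ Q hρ hQ ρ' h0 hlt
  have hρpos := hQ.pos
  have hρρ₀ : ρ ≤ ρ₀ := hρ.trans ((min_le_left _ _).trans (min_le_left _ _))
  have hρρ₁ : ρ ≤ ρ₁ := hρ.trans ((min_le_left _ _).trans (min_le_right _ _))
  have hρ1 : ρ ≤ 1 := hρ.trans (min_le_right _ _)
  set ρ₂ : ℝ := (ρ' + ρ) / 2 with hρ₂
  have h02 : 0 < ρ₂ := by positivity
  have h2lt : ρ₂ < ρ := by linarith
  have hlt2 : ρ' < ρ₂ := by linarith
  obtain ⟨C₁, hC₁⟩ := Odp2.sup_le_L2 n h02 h2lt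
  obtain ⟨C₂, hC₂, hg⟩ := hg ρ₂ h02 (h2lt.le.trans hρ1)
  -- the weight
  have hϖ : ∀ j, ∀ χ ∈ VV G sg Q ρ,
      ‖χ (ψ j)‖ₑ ^ 2 ≤ (∑ j, Cψ j : ℝ≥0) * ‖eval (proj G.y χ) G.D‖ₑ ^ 2 * ϖ χ := by
    intro j χ hχ
    have h1 : χ ∈ UU G sg ρ₁ := ⟨hχ.1.trans_le (by gcongr), hχ.2.2⟩
    refine (hCψ j χ h1 (hQ.D_ne _ hχ.1 hχ.2.1)).trans ?_
    have h2 : Cψ j ≤ ∑ j, Cψ j := Finset.single_le_sum (f := Cψ) (fun _ _ => zero_le)
      (Finset.mem_univ j)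
    have h3 : ((Cψ j : ℝ≥0) : ℝ≥0∞) ≤ ((∑ j, Cψ j : ℝ≥0) : ℝ≥0∞) := by exact_mod_cast h2
    gcongr
  set C₃ : ℝ≥0 := C₁ * (d * ∑ j, Cψ j) with hC₃
  set C₄ : ℝ := ∑ i, |Ce i| * ∑ j, |Ca i j| * C₂ with hC₄
  have hC₄0 : 0 ≤ C₄ := by positivity
  refine ⟨C₃ * (Real.toNNReal C₂ ^ 2 + Real.toNNReal C₄ ^ 2), ?_⟩
  intro Z hZ hfin
  set I := sumI G (VV G sg Q ρ) (fun χ => ‖Z χ‖ₑ ^ 2 * ϖ χ) with hI
  choose ζ hζ1 hζ2 hζ3 using fun j => om_ext hd hρρ₀ hQ (hϖ j) hC₁ hZ hfin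
  -- the sup norm
  set t : ℝ := √((C₃ * I).toReal) with ht
  have hCI : (C₃ : ℝ≥0∞) * I ≠ ⊤ := ENNReal.mul_ne_top ENNReal.coe_ne_top hfin
  have ht2 : ENNReal.ofReal (t ^ 2) = C₃ * I := by
    rw [ht, Real.sq_sqrt ENNReal.toReal_nonneg, ENNReal.ofReal_toReal hCI]
  have ht0 : 0 ≤ t := Real.sqrt_nonneg _
  have hsq : ρ₂ ^ 2 < ρ ^ 2 := by gcongr
  have hsub : bal n ρ₂ ⊆ bal n ρ := fun w hw => lt_trans (show nq w < ρ₂ ^ 2 from hw) hsq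
  have hζt : ∀ j w, nq w < ρ₂ ^ 2 → ‖ζ j w‖ ≤ t := by
    intro j w hw
    have h1 := hζ3 j w hw.le
    rw [← hI, ← hC₃, ← ht2, ← ofReal_norm, ← ENNReal.ofReal_pow (norm_nonneg _)] at h1
    have h2 := (ENNReal.ofReal_le_ofReal_iff (by positivity)).1 h1
    exact (pow_le_pow_iff_left₀ (norm_nonneg _) ht0 two_ne_zero).1 h2
  have hrel : ∀ l w, nq w < ρ₂ ^ 2 → ∑ j, eval w (A l j) * ζ j w = 0 := by
    intro l w hw
    refine approx_zero hQ.holo hQ.ne hζ1 (A l) (fun v hv hQv => ?_) (hsub hw)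
    have hDv : eval v G.D ≠ 0 := hQ.D_ne v hv hQv
    have h1 : ∀ j, eval v (A l j) * ζ j v =
        ∑ χ' ∈ (omFib_finite G (sg := sg) (Q := Q) (ρ := ρ) hDv).toFinset,
          (eval v (A l j) * χ' (ψ j)) * (Z χ' / eval v G.D) := by
      intro j
      rw [hζ2 j v hv hQv, omF_eq G Z (ψ j) hDv, Finset.mul_sum]
      exact Finset.sum_congr rfl fun χ' _ => by ring
    rw [Finset.sum_congr rfl fun j _ => h1 j, Finset.sum_comm]
    refine Finset.sum_eq_zero fun χ' hχ' => ?_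
    rw [Set.Finite.mem_toFinset] at hχ'
    rw [← Finset.sum_mul]
    have h6 := congrArg χ' (hA l)
    rw [map_sum, map_zero] at h6
    have h7 : ∑ j, eval v (A l j) * χ' (ψ j) = 0 := by
      rw [← h6]
      refine Finset.sum_congr rfl fun j _ => ?_
      rw [map_mul, bdd_aeval, hχ'.2]
    rw [h7, zero_mul]
  obtain ⟨c, hc1, hc2⟩ := hg ζ t ht0 (fun j => (hζ1 j).mono hsub) hζt hrel
  refine ⟨c, fun i => ?_, fun χ hχ hχn => ?_⟩
  · have h1 : ‖c i‖ₑ ^ 2 ≤ ENNReal.ofReal ((C₂ * t) ^ 2) := by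
      rw [← ofReal_norm, ← ENNReal.ofReal_pow (norm_nonneg _)]
      refine ENNReal.ofReal_le_ofReal ?_
      have := hc1 i
      gcongr
    refine h1.trans ?_
    rw [mul_pow, ENNReal.ofReal_mul (by positivity), ht2, ENNReal.ofReal_pow hC₂]
    have h2 : ENNReal.ofReal C₂ = (Real.toNNReal C₂ : ℝ≥0∞) := rfl
    rw [h2]
    push_cast
    calc (Real.toNNReal C₂ : ℝ≥0∞) ^ 2 * (C₃ * I)
        = C₃ * (Real.toNNReal C₂ : ℝ≥0∞) ^ 2 * I := by ring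
      _ ≤ C₃ * ((Real.toNNReal C₂ : ℝ≥0∞) ^ 2 + (Real.toNNReal C₄ : ℝ≥0∞) ^ 2) * I := by
          gcongr
          exact le_self_add
  · set w := proj G.y χ with hw
    have hwb : w ∈ bal n ρ := hχ.1
    have hwQ : Q w ≠ 0 := hχ.2.1
    have hD : eval w G.D ≠ 0 := hQ.D_ne w hwb hwQ
    have hw2 : nq w < ρ₂ ^ 2 := hχn.trans_lt (by gcongr)
    have hw1 : nq w ≤ 1 := hw2.le.trans (by
      have : ρ₂ ^ 2 ≤ 1 ^ 2 := by
        have : ρ₂ ≤ 1 := by linarith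
        gcongr
      linarith)
    set b : B := ∑ i, algebraMap ℂ B (c i) * g i with hb
    have hkey : ‖eval w G.D * (Z χ - χ b)‖ ≤ C₄ * (t * √(nq w) ^ M) := by
      have hs0 : 0 ≤ t * √(nq w) ^ M := by positivity
      rw [approx_inv G ha₁ ha₂ Z b hχ hD]
      refine (norm_sum_le _ _).trans ?_
      rw [hC₄, Finset.sum_mul]
      refine Finset.sum_le_sum fun i _ => ?_
      rw [norm_mul, mul_assoc]
      have h1 : ‖χ (G.e i)‖ ≤ |Ce i| := (hCe i χ hw1).trans (le_abs_self _)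
      refine mul_le_mul h1 ?_ (norm_nonneg _) (abs_nonneg _)
      refine (norm_sum_le _ _).trans ?_
      rw [Finset.sum_mul]
      refine Finset.sum_le_sum fun j _ => ?_
      rw [norm_mul, mul_assoc]
      have h2 : ‖eval w (a i j)‖ ≤ |Ca i j| := (hCa i j w hw1).trans (le_abs_self _)
      refine mul_le_mul h2 ?_ (norm_nonneg _) (abs_nonneg _)
      rw [← hζ2 j w hwb hwQ]
      have h3 := hc2 j w hw2
      calc _ ≤ C₂ * t * √(nq w) ^ M := h3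
        _ = _ := by ring
    have h1 : ‖eval w G.D‖ₑ ^ 2 * ‖Z χ - χ b‖ₑ ^ 2 ≤
        ENNReal.ofReal ((C₄ * (t * √(nq w) ^ M)) ^ 2) := by
      rw [← mul_pow, ← enorm_mul, ← ofReal_norm, ← ENNReal.ofReal_pow (norm_nonneg _)]
      refine ENNReal.ofReal_le_ofReal ?_
      gcongr
    refine h1.trans ?_
    have h2 : (C₄ * (t * √(nq w) ^ M)) ^ 2 = C₄ ^ 2 * (t ^ 2 * nq w ^ M) := by
      rw [mul_pow, mul_pow, ← pow_mul, mul_comm M 2, pow_mul, Real.sq_sqrt (nq_nonneg w)]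
    rw [h2, ENNReal.ofReal_mul (by positivity), ENNReal.ofReal_mul (by positivity), ht2,
      ENNReal.ofReal_pow hC₄0, ENNReal.ofReal_pow (nq_nonneg w)]
    have h3 : ENNReal.ofReal C₄ = (Real.toNNReal C₄ : ℝ≥0∞) := rfl
    rw [h3]
    push_cast
    calc (Real.toNNReal C₄ : ℝ≥0∞) ^ 2 * (C₃ * I * ENNReal.ofReal (nq w) ^ M)
        = C₃ * (Real.toNNReal C₄ : ℝ≥0∞) ^ 2 * ENNReal.ofReal (nq w) ^ M * I := by ring
      _ ≤ C₃ * ((Real.toNNReal C₂ : ℝ≥0∞) ^ 2 + (Real.toNNReal C₄ : ℝ≥0∞) ^ 2) *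
          ENNReal.ofReal (nq w) ^ M * I := by
          gcongr
          exact le_add_self

end Pool.Agent.Odp3
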