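import Pool.Agent.Odp3.Defs
import Pool.Agent.Work.MP_a2bf38_gt.Q.HormG

/-!
# Smooth functions on the sheets, the weight of Theorem M
-/

open scoped ContDiff Topology ENNReal NNReal WithZero
open Set MeasureTheory Filter MvPolynomial Pool.Agent.ODP Pool.Agent.ToricKRF
  Pool.Agent.ToricKRF.G Pool.Agent.KRFS Pool.Agent.KRFQ

namespace Pool.Agent.Odp3

/-- The smooth functions on `V`. -/
def SmR {n d : ℕ} {B : Type} [CommRing B] [Algebra ℂ B] (G : Germ n d B) (V : Set (Pt B))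
    {E : Type} [NormedAddCommGroup E] [NormedSpace ℝ E] (Φ : Pt B → E) : Prop :=
  ∀ Ω s, IsSec G V Ω s → ContDiffOn ℝ ∞ (fun z : Cn n => Φ (s (cc z))) {z | cc z ∈ Ω}

/-- The weight of Theorem M: `(∑ |F_l|² + η)^(-A) (|y|² + r²)^(-δ) |h|^(-2s)`. -/
noncomputable def wt {n d : ℕ} {B : Type} [CommRing B] [Algebra ℂ B] (G : Germ n d B)
    {L : ℕ} (F : Fin L → B) (h : B) (η A r δ s : ℝ) (χ : Pt B) : ℝ :=
  (∑ l, ‖χ (F l)‖ ^ 2 + η) ^ (-A) * (nq (proj G.y χ) + r ^ 2) ^ (-δ) * ‖χ h‖ ^ (-(2 * s))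

end Pool.Agent.Odp3
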