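import Pool.Agent.Odp3.Horm.Atlas
import Pool.Agent.Work.MP_a2bf38_gt.Q.Meas

/-!
# The measure `exp (-Φ) |dy_1 ∧ … ∧ dy_n|²` on the sheets
-/

open scoped ContDiff Topology ENNReal NNReal WithZero
open Set MeasureTheory Filter MvPolynomial Pool.Agent.ODP Pool.Agent.ToricKRF
  Pool.Agent.ToricKRF.G Pool.Agent.KRFS Pool.Agent.KRFQ

namespace Pool.Agent.Odp3

theorem volume_preserving_cc {n : ℕ} :
    MeasurePreserving (cc : Cn n → Fin n → ℂ) volume volume := by
  have h1 : MeasurePreserving (fun (a : Fin n → ℝ × ℝ) (i : Fin n) =>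
      Complex.measurableEquivRealProd.symm (a i)) volume volume :=
    volume_preserving_pi fun _ => Complex.volume_preserving_equiv_real_prod.symm
  have h2 := (volume_measurePreserving_arrowProdEquivProdArrow ℝ ℝ (Fin n)).symm
  exact h1.comp h2

/-- `ℂ^n` as a real space. -/
noncomputable def ccE (n : ℕ) : Cn n ≃ᵐ (Fin n → ℂ) where
  toFun := cc
  invFun := ofv
  left_inv := ofv_cc
  right_inv := cc_ofv'
  measurable_toFun := continuous_cc'.measurable
  measurable_invFun := continuous_ofv.measurable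

theorem setLIntegral_cc {n : ℕ} (Ω : Set (Fin n → ℂ)) (f : (Fin n → ℂ) → ℝ≥0∞) :
    ∫⁻ z in {z : Cn n | cc z ∈ Ω}, f (cc z) = ∫⁻ w in Ω, f w :=
  (volume_preserving_cc (n := n)).setLIntegral_comp_preimage_emb (ccE n).measurableEmbedding f Ω

variable {n d : ℕ} {B : Type} [CommRing B] [Algebra ℂ B] {G : Germ n d B} {V : Set (Pt B)}

/-- A function on `V` is continuous when it is continuous in the charts. -/
theorem continuousOn_of_sec {E : Type*} [TopologicalSpace E] {F : Pt B → E}
    (hV : ∀ p ∈ V, ∃ c : Sec G V, p ∈ (ech c).source)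
    (h : ∀ c : Sec G V, ContinuousOn (fun w => F (c.s w)) c.Ω) : ContinuousOn F V := by
  intro p hp
  obtain ⟨c, hc⟩ := hV p hp
  obtain ⟨w, hw, rfl⟩ := hc
  have h1 : Tendsto (proj G.y) (𝓝 (c.s w)) (𝓝 w) := by
    have := (continuous_proj G.y).tendsto (c.s w)
    rwa [c.isSec.proj w hw] at this
  have h2 : Tendsto (fun w => F (c.s w)) (𝓝 w) (𝓝 (F (c.s w))) :=
    (h c).continuousAt (c.isSec.isOpen.mem_nhds hw)
  have h3 := h2.comp h1
  refine ContinuousAt.continuousWithinAt ?_
  refine Tendsto.congr' ?_ h3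
  filter_upwards [sec_eventually_eq c.isSec hw (c.D_ne w hw)] with χ hχ
  exact (congrArg F hχ.2).symm

/-- The sum over the sheets, over a countable partition. -/
theorem tsum_sheets (s : ℕ → Sec G V) (D : ℕ → Set (Pt B)) (hDs : ∀ i, D i ⊆ (s i).s '' (s i).Ω)
    (hDd : Pairwise (Function.onFun Disjoint D)) (hDu : ⋃ i, D i = V) (F : Pt B → ℝ≥0∞)
    (w : Fin n → ℂ) :
    ∑' χ : {χ : Pt B // χ ∈ V ∧ proj G.y χ = w}, F χ =
      ∑' i, (s i).Ω.indicator (fun w => (D i).indicator F ((s i).s w)) w := by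
  classical
  have h1 : ∑' χ : {χ : Pt B // χ ∈ V ∧ proj G.y χ = w}, F χ =
      ∑' χ, {χ : Pt B | χ ∈ V ∧ proj G.y χ = w}.indicator F χ :=
    tsum_subtype {χ : Pt B | χ ∈ V ∧ proj G.y χ = w} F
  have h2 : ∀ χ, {χ : Pt B | χ ∈ V ∧ proj G.y χ = w}.indicator F χ =
      ∑' i, {χ : Pt B | χ ∈ D i ∧ proj G.y χ = w}.indicator F χ := by
    intro χ
    by_cases hχ : χ ∈ V ∧ proj G.y χ = w
    · have h3 := hχ.1
      rw [← hDu] at h3
      obtain ⟨i, hi⟩ := mem_iUnion.1 h3
      rw [indicator_of_mem (show χ ∈ {χ : Pt B | χ ∈ V ∧ proj G.y χ = w} from hχ),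
        tsum_eq_single i, indicator_of_mem
          (show χ ∈ {χ : Pt B | χ ∈ D i ∧ proj G.y χ = w} from ⟨hi, hχ.2⟩)]
      intro j hj
      refine indicator_of_notMem ?_ _
      rintro ⟨h4, -⟩
      exact (disjoint_left.1 (hDd hj) h4) hi
    · rw [indicator_of_notMem (show χ ∉ {χ : Pt B | χ ∈ V ∧ proj G.y χ = w} from hχ)]
      symm
      refine ENNReal.tsum_eq_zero.2 fun i => indicator_of_notMem ?_ _
      rintro ⟨h4, h5⟩
      exact hχ ⟨hDu ▸ mem_iUnion.2 ⟨i, h4⟩, h5⟩
  rw [h1]
  simp only [h2]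
  rw [ENNReal.tsum_comm]
  refine tsum_congr fun i => ?_
  by_cases hw : w ∈ (s i).Ω
  · rw [indicator_of_mem hw, tsum_eq_single ((s i).s w)]
    · by_cases hD : (s i).s w ∈ D i
      · rw [indicator_of_mem hD, indicator_of_mem
          (show (s i).s w ∈ {χ : Pt B | χ ∈ D i ∧ proj G.y χ = w} from
            ⟨hD, (s i).isSec.proj w hw⟩)]
      · rw [indicator_of_notMem hD, indicator_of_notMem]
        exact fun h => hD h.1
    · intro χ hχ
      refine indicator_of_notMem ?_ _
      rintro ⟨h4, h5⟩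
      obtain ⟨w', hw', rfl⟩ := hDs i h4
      rw [(s i).isSec.proj w' hw'] at h5
      exact hχ (by rw [h5])
  · rw [indicator_of_notMem hw]
    refine ENNReal.tsum_eq_zero.2 fun χ => indicator_of_notMem ?_ _
    rintro ⟨h4, h5⟩
    obtain ⟨w', hw', rfl⟩ := hDs i h4
    rw [(s i).isSec.proj w' hw'] at h5
    exact hw (h5 ▸ hw')

theorem isOpen_of_cover (s : ℕ → Sec G V) (hs : V = ⋃ i, (ech (s i)).source) : IsOpen V := by
  rw [hs]
  exact isOpen_iUnion fun i => (ech (s i)).open_source

/-- **The measure with the densities `exp (-Φ)` in the charts** is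
`exp (-Φ) |dy_1 ∧ … ∧ dy_n|²`. -/
theorem lintegral_eq_sumI {Φ : Pt B → ℝ} {μ : Measure (Pt B)}
    (hμ : IsDens (ech (G := G) (V := V)) (fun c z => Real.exp (-Φ (c.s (cc z)))) μ)
    (hV0 : μ Vᶜ = 0) (s : ℕ → Sec G V) (hs : V = ⋃ i, (ech (s i)).source)
    (hΦ : ContinuousOn Φ V) {F : Pt B → ℝ≥0∞} (hF : ContinuousOn F V) :
    ∫⁻ χ, F χ ∂μ = sumI G V (fun χ => F χ * ENNReal.ofReal (Real.exp (-Φ χ))) := by
  classical
  set D : ℕ → Set (Pt B) := disjointed fun i => (ech (s i)).source with hD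
  have hDm : ∀ i, MeasurableSet (D i) := fun i =>
    MeasurableSet.disjointed (fun i => (ech (s i)).open_source.measurableSet) i
  have hDs : ∀ i, D i ⊆ (ech (s i)).source := fun i => disjointed_subset _ i
  have hDd : Pairwise (Function.onFun Disjoint D) := disjoint_disjointed _
  have hDu : ⋃ i, D i = V := by rw [hs, hD, iUnion_disjointed]
  have hVo : IsOpen V := isOpen_of_cover s hs
  have hDV : ∀ i, D i ⊆ V := fun i => hDu ▸ subset_iUnion D i
  have hmeas : ∀ {H : Pt B → ℝ≥0∞}, ContinuousOn H V → ∀ i, Measurable ((D i).indicator H) := by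
    intro H hH i
    have h1 : Measurable (V.piecewise H fun _ => 0) :=
      hH.measurable_piecewise continuousOn_const hVo.measurableSet
    have h2 : (D i).indicator H = (D i).indicator (V.piecewise H fun _ => 0) := by
      ext χ
      by_cases hχ : χ ∈ D i
      · rw [indicator_of_mem hχ, indicator_of_mem hχ, piecewise_eq_of_mem _ _ _ (hDV i hχ)]
      · rw [indicator_of_notMem hχ, indicator_of_notMem hχ]
    rw [h2]
    exact h1.indicator (hDm i)
  have hE : ContinuousOn (fun χ => ENNReal.ofReal (Real.exp (-Φ χ))) V :=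
    ENNReal.continuous_ofReal.comp_continuousOn (Real.continuous_exp.comp_continuousOn hΦ.neg)
  have hFE : ∀ i, Measurable ((D i).indicator fun χ => F χ * ENNReal.ofReal (Real.exp (-Φ χ))) := by
    intro i
    have h1 : ((D i).indicator fun χ => F χ * ENNReal.ofReal (Real.exp (-Φ χ))) =
        fun χ => (D i).indicator F χ *
          (D i).indicator (fun χ => ENNReal.ofReal (Real.exp (-Φ χ))) χ := by
      ext χ
      by_cases hχ : χ ∈ D i
      · simp only [indicator_of_mem hχ]
      · simp only [indicator_of_notMem hχ, mul_zero]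
    rw [h1]
    exact (hmeas hF i).mul (hmeas hE i)
  have hs_ae : ∀ i, AEMeasurable (s i).s (volume.restrict (s i).Ω) := fun i =>
    (s i).isSec.continuousOn.aemeasurable (s i).isSec.isOpen.measurableSet
  have hsum : sumI G V (fun χ => F χ * ENNReal.ofReal (Real.exp (-Φ χ))) =
      ∑' i, ∫⁻ w in (s i).Ω, (D i).indicator
        (fun χ => F χ * ENNReal.ofReal (Real.exp (-Φ χ))) ((s i).s w) := by
    unfold sumI
    rw [lintegral_congr fun w => tsum_sheets s D hDs hDd hDu
      (fun χ => F χ * ENNReal.ofReal (Real.exp (-Φ χ))) w, lintegral_tsum]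
    · refine tsum_congr fun i => ?_
      rw [lintegral_indicator (s i).isSec.isOpen.measurableSet]
    · intro i
      rw [aemeasurable_indicator_iff (s i).isSec.isOpen.measurableSet]
      exact (hFE i).comp_aemeasurable (hs_ae i)
  have hL : ∫⁻ χ, F χ ∂μ = ∑' i, ∫⁻ χ in D i, F χ ∂μ := by
    have h1 : ∫⁻ χ, F χ ∂μ = ∫⁻ χ in V, F χ ∂μ := by
      have h2 : μ.restrict V = μ := Measure.restrict_eq_self_of_ae_mem (by
        rw [ae_iff]
        exact hV0)
      rw [h2]
    rw [h1, ← hDu, lintegral_iUnion hDm hDd]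
  rw [hsum, hL]
  refine tsum_congr fun i => ?_
  have h3 : ∫⁻ χ in D i, F χ ∂μ = ∫⁻ χ in (ech (s i)).source, (D i).indicator F χ ∂μ := by
    rw [lintegral_indicator (hDm i), Measure.restrict_restrict (hDm i),
      inter_eq_left.2 (hDs i)]
  have h4 : AEMeasurable (ech (s i)).symm ((volume.restrict (ech (s i)).target).withDensity
      fun z => ENNReal.ofReal (Real.exp (-Φ ((s i).s (cc z))))) := aemeasurable_symm (s i) _
  have h5 : AEMeasurable (ech (s i)).symm (volume.restrict (ech (s i)).target) :=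
    (ech (s i)).symm.continuousOn.aemeasurable (ech (s i)).open_target.measurableSet
  have h6 : AEMeasurable (fun z : Cn n => ENNReal.ofReal (Real.exp (-Φ ((s i).s (cc z)))))
      (volume.restrict (ech (s i)).target) := by
    refine ContinuousOn.aemeasurable ?_ (ech (s i)).open_target.measurableSet
    exact hE.comp (ech (s i)).symm.continuousOn fun z hz => (s i).isSec.mem _ hz
  have h7 := lintegral_withDensity_eq_lintegral_mul₀ h6 ((hmeas hF i).comp_aemeasurable h5)
  simp only [Function.comp_apply] at h7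
  rw [h3, hμ.eq, lintegral_map' (hmeas hF i).aemeasurable h4, h7, ech_target, ← setLIntegral_cc]
  refine lintegral_congr fun z => ?_
  simp only [Pi.mul_apply, Function.comp_apply, ech_symm]
  by_cases hχ : (s i).s (cc z) ∈ D i
  · rw [indicator_of_mem hχ, indicator_of_mem hχ, mul_comm]
  · rw [indicator_of_notMem hχ, indicator_of_notMem hχ, mul_zero]

end Pool.Agent.Odp3
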